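import Mathlib

/-!
# Points over general points
-/

namespace Pool.Agent.Helper76.UF

open MvPolynomial TensorProduct

/-- The image of a dominant morphism of finite type contains a nonempty basic open set. -/
theorem q3_open {A B : Type*} [CommRing A] [IsDomain A] [IsNoetherianRing A] [CommRing B]
    [IsDomain B] [Algebra A B] [Algebra.FiniteType A B]
    (hinj : Function.Injective (algebraMap A B)) :
    ∃ Δ : A, Δ ≠ 0 ∧ ∀ p : PrimeSpectrum A, Δ ∉ p.asIdeal →
      p ∈ Set.range (PrimeSpectrum.comap (algebraMap A B)) := by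
  have hft : (algebraMap A B).FiniteType := RingHom.finiteType_algebraMap.2 inferInstance
  have hfp : (algebraMap A B).FinitePresentation := RingHom.FinitePresentation.of_finiteType.1 hft
  obtain ⟨T, hT⟩ := PrimeSpectrum.exists_constructibleSetData_iff.2
    (PrimeSpectrum.isConstructible_range_comap hfp)
  have hbot : (⊥ : PrimeSpectrum A) ∈ Set.range (PrimeSpectrum.comap (algebraMap A B)) := by
    refine ⟨⊥, ?_⟩
    ext x
    rw [PrimeSpectrum.comap_asIdeal, Ideal.mem_comap]
    simp only [PrimeSpectrum.asIdeal_bot, Ideal.mem_bot]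
    exact map_eq_zero_iff _ hinj
  rw [← hT, PrimeSpectrum.ConstructibleSetData.toSet, Set.mem_iUnion₂] at hbot
  obtain ⟨C, hC, hCb⟩ := hbot
  rw [PrimeSpectrum.BasicConstructibleSetData.toSet] at hCb
  have h1 : ∀ i, C.g i = 0 := by
    intro i
    have h := hCb.1
    rw [PrimeSpectrum.mem_zeroLocus] at h
    have h2 := h ⟨i, rfl⟩
    simpa using h2
  have h2 : C.f ≠ 0 := by
    intro h
    apply hCb.2
    rw [PrimeSpectrum.mem_zeroLocus, h]
    simp
  refine ⟨C.f, h2, fun p hp => ?_⟩
  rw [← hT, PrimeSpectrum.ConstructibleSetData.toSet, Set.mem_iUnion₂]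
  refine ⟨C, hC, ?_⟩
  rw [PrimeSpectrum.BasicConstructibleSetData.toSet]
  constructor
  · rw [PrimeSpectrum.mem_zeroLocus]
    rintro _ ⟨i, rfl⟩
    rw [h1 i]
    exact Ideal.zero_mem _
  · rw [PrimeSpectrum.mem_zeroLocus]
    intro h
    exact hp (h rfl)

/-- The fibre over a point in the image is not empty. -/
theorem q3_nontrivial {A B K : Type*} [CommRing A] [CommRing B] [Field K] [Algebra A B]
    [Algebra A K] (h : ∀ p : PrimeSpectrum A, p.asIdeal = RingHom.ker (algebraMap A K) →
      p ∈ Set.range (PrimeSpectrum.comap (algebraMap A B))) : Nontrivial (K ⊗[A] B) := by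
  obtain ⟨p, hpk⟩ : ∃ p : PrimeSpectrum A, p.asIdeal = RingHom.ker (algebraMap A K) :=
    ⟨⟨RingHom.ker (algebraMap A K), RingHom.ker_isPrime _⟩, rfl⟩
  have h1 := (PrimeSpectrum.nontrivial_iff_mem_rangeComap (S := B) p).2 (h p hpk)
  let κ := p.asIdeal.ResidueField
  have hu : p.asIdeal.primeCompl ≤ Submonoid.comap (algebraMap A K) (IsUnit.submonoid K) := by
    intro x hx
    refine isUnit_iff_ne_zero.2 fun h0 => hx ?_
    have h3 : x ∈ p.asIdeal := by
      rw [hpk]
      exact h0
    exact h3
  let ψ : κ →+* K := Ideal.ResidueField.lift p.asIdeal (algebraMap A K) hpk.le hu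
  let _ : Algebra κ K := ψ.toAlgebra
  have : IsScalarTower A κ K := IsScalarTower.of_algebraMap_eq fun x =>
    (Ideal.ResidueField.lift_algebraMap p.asIdeal (algebraMap A K) hpk.le hu x).symm
  let e := Algebra.TensorProduct.cancelBaseChange A κ K K B
  have h2 : Nontrivial (K ⊗[κ] (κ ⊗[A] B)) := inferInstance
  exact e.symm.toEquiv.nontrivial


/-- Over a general point, with coordinates in a field `K`, of the target of the dominant polynomial
map `f` there is a point of the source with `v ≠ 0`, with coordinates in a finite extension.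

Proof. Let `A = MvPolynomial E ℚ`, `B = MvPolynomial S ℚ`, an `A`-algebra by the injective map
`aeval f`. The image in `Spec A` of the basic open set of `v` in `Spec B` is constructible
(Chevalley, `PrimeSpectrum.isConstructible_comap_image` or
`RingHom.FinitePresentation` versions of it) and contains the generic point of `Spec A` (the image
of the generic point of `Spec B`), so it contains a nonempty basic open set `D(Δ)`. (Alternatively:
generic freeness, or Noether normalization of `B[1/v]` over the fraction field of `A`.)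
Let `y : E → K` with `aeval y Δ ≠ 0`, and `p` the kernel of `aeval y : A → K`, a point of `D(Δ)`. So
there is a prime ideal `q` of `B` over `p` with `v ∉ q`, and the ring `κ(p) ⊗[A] B[1/v]` is not
zero; hence neither is `K ⊗[A] B[1/v] = K ⊗[κ(p)] (κ(p) ⊗[A] B[1/v])`, a finitely generated
`K`-algebra. Its quotient `L` by a maximal ideal is a finite extension of `K`
(Nullstellensatz: `finite_of_finite_type_of_isJacobsonRing`). -/
theorem chev {E S : Type} [Finite E] [Finite S] (f : E → MvPolynomial S ℚ)
    (hf : AlgebraicIndependent ℚ f) (v : MvPolynomial S ℚ) (hv : v ≠ 0) :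
    ∃ Δ : MvPolynomial E ℚ, Δ ≠ 0 ∧ ∀ (K : Type) [Field K] [CharZero K] (y : E → K),
      aeval y Δ ≠ 0 → ∃ (L : Type) (_ : Field L) (_ : CharZero L) (_ : Algebra K L)
        (_ : FiniteDimensional K L) (x : S → L),
        (∀ e, aeval x (f e) = algebraMap K L (y e)) ∧ aeval x v ≠ 0 := by
  let A := MvPolynomial E ℚ
  let B := MvPolynomial S ℚ
  let Bv := Localization.Away v
  let φ : A →ₐ[ℚ] B := aeval f
  let : Algebra A B := φ.toRingHom.toAlgebra
  have hdom : IsDomain Bv := IsLocalization.isDomain_localization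
    (powers_le_nonZeroDivisors_of_noZeroDivisors hv)
  have : IsScalarTower ℚ A B := IsScalarTower.of_algebraMap_eq fun x => (φ.commutes x).symm
  have : Algebra.FiniteType A B := Algebra.FiniteType.of_restrictScalars_finiteType ℚ A B
  have : Algebra.FiniteType B Bv := IsLocalization.finiteType_of_monoid_fg (Submonoid.powers v) Bv
  have : Algebra.FiniteType A Bv := Algebra.FiniteType.trans (S := B) inferInstance inferInstance
  have hinj : Function.Injective (algebraMap A Bv) := by
    rw [IsScalarTower.algebraMap_eq A B Bv, RingHom.coe_comp]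
    refine Function.Injective.comp ?_ hf
    exact IsLocalization.injective Bv (powers_le_nonZeroDivisors_of_noZeroDivisors hv)
  obtain ⟨Δ, hΔ, hp⟩ := q3_open hinj
  refine ⟨Δ, hΔ, ?_⟩
  intro K _ _ y hy
  let : Algebra A K := (aeval y : A →ₐ[ℚ] K).toRingHom.toAlgebra
  have : Nontrivial (K ⊗[A] Bv) := q3_nontrivial (by
    intro p hpk
    refine hp p ?_
    rw [hpk]
    exact hy)
  obtain ⟨m, hm⟩ := Ideal.exists_maximal (K ⊗[A] Bv)
  let hLf : Field ((K ⊗[A] Bv) ⧸ m) := Ideal.Quotient.field m
  have hfin : Module.Finite K ((K ⊗[A] Bv) ⧸ m) :=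
    finite_of_finite_type_of_isJacobsonRing K ((K ⊗[A] Bv) ⧸ m)
  have hchar : CharZero ((K ⊗[A] Bv) ⧸ m) :=
    charZero_of_injective_algebraMap (algebraMap K ((K ⊗[A] Bv) ⧸ m)).injective
  let g0 : B →+* ((K ⊗[A] Bv) ⧸ m) := (Ideal.Quotient.mk m).comp
    ((Algebra.TensorProduct.includeRight : Bv →ₐ[A] K ⊗[A] Bv).toRingHom.comp (algebraMap B Bv))
  let g : B →ₐ[ℚ] ((K ⊗[A] Bv) ⧸ m) := g0.toRatAlgHom
  have hg : ∀ b, aeval (fun s => g (X s)) b = g b := fun b => by
    have h := MvPolynomial.aeval_unique g
    exact (DFunLike.congr_fun h b).symm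
  refine ⟨(K ⊗[A] Bv) ⧸ m, hLf, hchar, inferInstance, hfin, fun s => g (X s), ?_, ?_⟩
  · intro e
    rw [hg]
    have h1 : f e = algebraMap A B (X e) := by
      change f e = aeval f (X e)
      rw [aeval_X]
    have h2 : (algebraMap A K (X e)) = y e := by
      change aeval y (X e) = y e
      rw [aeval_X]
    change Ideal.Quotient.mk m ((1 : K) ⊗ₜ[A] (algebraMap B Bv (f e))) =
      Ideal.Quotient.mk m ((y e) ⊗ₜ[A] (1 : Bv))
    rw [h1, ← h2, ← IsScalarTower.algebraMap_apply A B Bv, Algebra.algebraMap_eq_smul_one,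
      Algebra.algebraMap_eq_smul_one, TensorProduct.tmul_smul, TensorProduct.smul_tmul']
  · rw [hg]
    have h1 : IsUnit (algebraMap B Bv v) := IsLocalization.Away.algebraMap_isUnit v
    have h2 : IsUnit (g v) := by
      change IsUnit (Ideal.Quotient.mk m
        ((Algebra.TensorProduct.includeRight : Bv →ₐ[A] K ⊗[A] Bv) (algebraMap B Bv v)))
      exact (h1.map _).map _
    exact h2.ne_zero

end Pool.Agent.Helper76.UF
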