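import Pool.Agent.Helper76.UF.Defs3

/-!
# Algebraic independence from derivations
-/

namespace Pool.Agent.Helper76.UF

open MvPolynomial

/-- The chain rule for a derivation. -/
theorem q1_chain {K M ε : Type*} [Field K] [CommRing M] [Algebra K M] (f : ε → M)
    (δ : Derivation K M M) (G : MvPolynomial ε K) :
    δ (aeval f G) = ∑ j ∈ G.vars, aeval f (pderiv j G) * δ (f j) := by
  classical
  let _ : Algebra (MvPolynomial ε K) M := (aeval f).toRingHom.toAlgebra
  have _ : IsScalarTower K (MvPolynomial ε K) M := IsScalarTower.of_algebraMap_eq fun r => by
    change algebraMap K M r = aeval f (algebraMap K (MvPolynomial ε K) r)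
    rw [AlgHom.commutes]
  have hs : ∀ (p : MvPolynomial ε K) (x : M), p • x = aeval f p * x := fun p x => by
    rw [Algebra.smul_def]
    rfl
  have hsum : ∀ (s : Finset ε) (D : ε → Derivation K (MvPolynomial ε K) M)
      (p : MvPolynomial ε K), (∑ j ∈ s, D j) p = ∑ j ∈ s, D j p := by
    intro s D p
    induction s using Finset.induction_on with
    | empty => rfl
    | insert a s ha ih => rw [Finset.sum_insert ha, Finset.sum_insert ha, Derivation.add_apply, ih]
  have e : δ.compAlgebraMap (MvPolynomial ε K) G =
      (∑ j ∈ G.vars, (LinearMap.toSpanSingleton (MvPolynomial ε K) M (δ (f j))).compDer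
        (pderiv j : Derivation K (MvPolynomial ε K) (MvPolynomial ε K))) G := by
    refine derivation_eq_of_forall_mem_vars fun i hi => ?_
    rw [hsum, Finset.sum_eq_single i]
    · change δ (aeval f (X i)) = (pderiv i (X i : MvPolynomial ε K)) • δ (f i)
      rw [pderiv_X_self, one_smul, aeval_X]
    · intro j _ hj
      change (pderiv j (X i : MvPolynomial ε K)) • δ (f j) = 0
      rw [pderiv_X_of_ne (Ne.symm hj), zero_smul]
    · intro h
      exact absurd hi h
  have e1 : δ.compAlgebraMap (MvPolynomial ε K) G = δ (aeval f G) := rfl
  rw [← e1, e, hsum]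
  refine Finset.sum_congr rfl fun j _ => ?_
  rw [← hs]
  rfl

theorem q1_gen {K M ε : Type*} [Field K] [CharZero K] [CommRing M] [Nontrivial M] [Algebra K M]
    (f : ε → M)
    (h : ∀ c : ε →₀ M, (∀ δ : Derivation K M M, (c.sum fun j x => x * δ (f j)) = 0) → c = 0) :
    AlgebraicIndependent K f := by
  classical
  have key : ∀ n : ℕ, ∀ G : MvPolynomial ε K, G.totalDegree < n → aeval f G = 0 → G = 0 := by
    intro n
    induction n with
    | zero =>
      intro G hG
      exact absurd hG (Nat.not_lt_zero _)
    | succ n ih =>
      intro G hG h0
      let c : ε →₀ M := Finsupp.onFinset G.vars (fun j => aeval f (pderiv j G)) (by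
        intro j hj
        by_contra hj'
        apply hj
        rw [pderiv_eq_zero_of_notMem_vars hj', map_zero])
      have hc : c = 0 := by
        apply h
        intro δ
        rw [Finsupp.onFinset_sum _ (fun j => zero_mul _), ← q1_chain, h0, map_zero]
      have hp : ∀ j, pderiv j G = 0 := by
        intro j
        have h1 : aeval f (pderiv j G) = 0 := by
          have h2 := DFunLike.congr_fun hc j
          exact h2
        by_contra hne
        apply hne
        have hlt : ∀ d ∈ (pderiv j G).support, (d.sum fun _ e => e) < n := by
          intro d hd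
          rw [mem_support_iff, coeff_pderiv] at hd
          have h3 : d + Finsupp.single j 1 ∈ G.support := by
            rw [mem_support_iff]
            intro h4
            apply hd
            rw [h4, zero_mul]
          have h4 := le_totalDegree h3
          rw [Finsupp.sum_add_index' (fun _ => rfl) (fun _ _ _ => rfl),
            Finsupp.sum_single_index rfl] at h4
          omega
        obtain ⟨d, hd⟩ := support_nonempty.2 hne
        have hn : 0 < n := lt_of_le_of_lt (Nat.zero_le _) (hlt d hd)
        refine ih _ ?_ h1
        rw [totalDegree, Finset.sup_lt_iff (by exact hn)]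
        exact hlt
      have hC : G = C (coeff 0 G) := by
        ext d
        rw [coeff_C]
        split_ifs with hd
        · rw [hd]
        · have hd' : ∃ j, d j ≠ 0 := by
            by_contra hno
            push Not at hno
            exact hd (Finsupp.ext fun j => (hno j).symm)
          obtain ⟨j, hj⟩ := hd'
          have h5 := congrArg (coeff (d - Finsupp.single j 1)) (hp j)
          rw [coeff_pderiv, coeff_zero] at h5
          have h6 : d - Finsupp.single j 1 + Finsupp.single j 1 = d := by
            refine tsub_add_cancel_of_le ?_
            rw [Finsupp.single_le_iff]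
            exact Nat.one_le_iff_ne_zero.2 hj
          rw [h6] at h5
          rcases mul_eq_zero.1 h5 with h7 | h7
          · exact h7
          · exfalso
            have h8 : (((d - Finsupp.single j 1 : ε →₀ ℕ) j + 1 : ℕ) : K) = 0 := by
              push_cast
              exact h7
            exact Nat.succ_ne_zero _ (Nat.cast_eq_zero.1 h8)
      rw [hC, aeval_C] at h0
      rw [hC, (map_eq_zero_iff _ (algebraMap K M).injective).1 h0, C_0]
  rw [AlgebraicIndependent, injective_iff_map_eq_zero]
  intro G hG
  exact key _ G (Nat.lt_succ_self _) hG

/-- Proof. If `f` is not algebraically independent take `G ≠ 0` of minimal total degree with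
`aeval f G = 0`. For every derivation `δ` of `M` over `K`,
`0 = δ (aeval f G) = ∑ j, aeval f (pderiv j G) * δ (f j)` (sum over the variables of `G`), so
`aeval f (pderiv j G) = 0` for all `j` by the hypothesis, so `pderiv j G = 0` by minimality
(`pderiv j G` is zero or of smaller total degree), so `G` is constant (characteristic zero),
so `G = 0`, a contradiction. -/
theorem algInd_of_der {K M ε : Type*} [Field K] [CharZero K] [Field M] [Algebra K M] (f : ε → M)
    (h : ∀ c : ε →₀ M, (∀ δ : Derivation K M M, (c.sum fun j x => x * δ (f j)) = 0) → c = 0) :
    AlgebraicIndependent K f :=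
  q1_gen f h

/-- Proof. It suffices to prove independence in `M = FractionRing (MvPolynomial σ K)`, where
`algInd_of_der` applies with the extensions to `M` of the derivations `pderiv s`: let `c` be as
there, with support `J`. By `h` (take `b` supported on `J`) the matrix
`(aeval x (pderiv s (f j)))_(s, j ∈ J)` has rank `#J`, so some minor of it of size `#J` is
nonzero, so the corresponding minor of `(pderiv s (f j))` is a nonzero polynomial, so the columns of
this matrix are linearly independent over `M` and `c = 0`. -/
theorem algInd_of_point {K K' : Type*} [Field K] [CharZero K] [Field K'] [Algebra K K']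
    {σ ε : Type*} [Fintype σ] (f : ε → MvPolynomial σ K) (x : σ → K')
    (h : ∀ b : ε → K', ∃ v : σ → K', ∀ e, ∑ s, v s * aeval x (pderiv s (f e)) = b e) :
    AlgebraicIndependent K f := by
  classical
  refine q1_gen f fun c hc => ?_
  have hinj : Function.Injective (MvPolynomial.map (algebraMap K K') :
      MvPolynomial σ K →+* MvPolynomial σ K') := map_injective _ (algebraMap K K').injective
  choose V hV using fun i : c.support => h (fun e => if e = (i : ε) then 1 else 0)
  let B : Matrix c.support c.support (MvPolynomial σ K') := Matrix.of fun i j =>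
    ∑ s, C (V i s) * MvPolynomial.map (algebraMap K K') (pderiv s (f j))
  have hB : ∀ i j, B i j =
      ∑ s, C (V i s) * MvPolynomial.map (algebraMap K K') (pderiv s (f j)) := fun _ _ => rfl
  have hev : (MvPolynomial.eval x).mapMatrix B = 1 := by
    ext i j
    rw [RingHom.mapMatrix_apply, Matrix.map_apply, hB, map_sum, Matrix.one_apply]
    have h1 := hV i (j : ε)
    rw [show (if i = j then (1 : K') else 0) = if (j : ε) = (i : ε) then 1 else 0 by
      simp only [← Subtype.ext_iff, eq_comm], ← h1]
    refine Finset.sum_congr rfl fun s _ => ?_
    rw [map_mul, eval_C, eval_map, aeval_def]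
  have hdet : B.det ≠ 0 := by
    intro h0
    have h1 := congrArg (MvPolynomial.eval x) h0
    rw [RingHom.map_det, hev, Matrix.det_one, map_zero] at h1
    exact one_ne_zero h1
  have hmul : B.mulVec (fun j => MvPolynomial.map (algebraMap K K') (c j)) = 0 := by
    funext i
    rw [Matrix.mulVec, dotProduct, Pi.zero_apply]
    have h1 : ∀ j : c.support, B i j * MvPolynomial.map (algebraMap K K') (c j) =
        ∑ s, C (V i s) * MvPolynomial.map (algebraMap K K') (c j * pderiv s (f j)) := by
      intro j
      rw [hB, Finset.sum_mul]
      refine Finset.sum_congr rfl fun s _ => ?_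
      rw [map_mul]
      ring
    simp only [h1]
    rw [Finset.sum_comm]
    refine Finset.sum_eq_zero fun s _ => ?_
    rw [← Finset.mul_sum, ← map_sum]
    have h2 := hc (pderiv s)
    rw [Finsupp.sum, ← Finset.sum_coe_sort] at h2
    rw [h2, map_zero, mul_zero]
  have hz := Matrix.eq_zero_of_mulVec_eq_zero hdet hmul
  ext1 j
  by_cases hj : j ∈ c.support
  · have h1 := congrFun hz ⟨j, hj⟩
    have h2 : MvPolynomial.map (algebraMap K K') (c j) = 0 := h1
    rw [Finsupp.coe_zero, Pi.zero_apply]
    exact (map_eq_zero_iff _ hinj).1 h2
  · rw [Finsupp.notMem_support_iff.1 hj]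
    rfl

end Pool.Agent.Helper76.UF
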