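import Pool.Agent.Helper76.UF.Defs3
import Pool.Agent.Helper76.UF.St.P4

/-!
# Linear spaces in cubic hypersurfaces: all cubic forms are tangent directions
-/

namespace Pool.Agent.Helper76.UF

section q4a_aux

variable {m : ℕ} {ω : Type*} [Fintype ω] {K : Type*}

theorem q4a_zero [Field K] (j : Fin m) (b : Ix m ω) (h : b ≠ .inl j) : std m ω K j b = 0 := by
  rcases b with b | b
  · have h1 : b ≠ j := fun h2 => h (by rw [h2])
    simp [std, h1]
  · simp [std]

theorem q4a_one [Field K] (j : Fin m) : std m ω K j (.inl j) = 1 := by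
  simp [std]

theorem q4a_std [Field K] (D : Ten (Ix m ω) K) (x : Ix m ω → K) (j k : Fin m) :
    tri D x (std m ω K j) (std m ω K k) = ∑ r, x r * D r (.inl j) (.inl k) := by
  unfold tri
  refine Finset.sum_congr rfl fun i _ => ?_
  rw [Finset.sum_eq_single (Sum.inl j), Finset.sum_eq_single (Sum.inl k)]
  · rw [q4a_one, q4a_one]
    ring
  · intro b _ hb
    rw [q4a_zero k b hb, mul_zero]
  · intro h
    exact absurd (Finset.mem_univ _) h
  · intro b _ hb
    rw [q4a_zero j b hb]
    simp
  · intro h
    exact absurd (Finset.mem_univ _) h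

theorem q4a_alpha [Field K] (D : Ten (Ix m ω) K) (hD : IsSym D) (g : Pr m → Ix m ω → K)
    (hdet : (QM D (std m ω K) g).det ≠ 0) (S : Fin m → Fin m → K) (hS : ∀ j k, S j k = S k j) :
    ∃ y : Ix m ω → K, ∀ j k, tri D (std m ω K j) (std m ω K k) y = S j k := by
  have hunit : IsUnit (QM D (std m ω K) g) := by
    rw [Matrix.isUnit_iff_isUnit_det]
    exact isUnit_iff_ne_zero.2 hdet
  obtain ⟨c, hc⟩ := (Matrix.mulVec_surjective_iff_isUnit.2 hunit)
    (fun e : Pr m => S e.1.1 e.1.2)
  have hq : qf D (std m ω K) (∑ e, c e • g e) = fun e : Pr m => S e.1.1 e.1.2 := by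
    rw [qf_sum, ← hc]
    funext e
    rw [Finset.sum_apply, Matrix.mulVec, dotProduct]
    refine Finset.sum_congr rfl fun f _ => ?_
    rw [qf_smul, Pi.smul_apply, smul_eq_mul, mul_comm]
    rfl
  refine ⟨∑ e, c e • g e, fun i' j' => ?_⟩
  rcases le_total i' j' with h | h
  · exact congrFun hq ⟨(i', j'), h⟩
  · rw [hD.tri12, hS]
    exact congrFun hq ⟨(j', i'), h⟩

/-- A symmetric form that vanishes on the standard subspace. -/
theorem q4a_symvan [Field K] [CharZero K] (E : Ten (Ix m ω) K) (hE : IsSym E)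
    (h0 : ∀ i j k, E (.inl i) (.inl j) (.inl k) = 0) :
    symvan (fun i j k => E i j k / 6) = E := by
  have h6 : ∀ i j k, E i j k / 6 + E i k j / 6 + E j i k / 6 + E j k i / 6 + E k i j / 6 +
      E k j i / 6 = E i j k := by
    intro i j k
    have a1 : E i k j = E i j k := (hE.swap23 i j k).symm
    have a2 : E j i k = E i j k := (hE.swap12 i j k).symm
    have a3 : E j k i = E i j k := by rw [← hE.swap23 j i k, a2]
    have a4 : E k i j = E i j k := by rw [← hE.swap12 i k j, a1]
    have a5 : E k j i = E i j k := by rw [hE.swap23 k j i, a4]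
    rw [a1, a2, a3, a4, a5]
    ring
  funext i j k
  rcases i with i | i <;> rcases j with j | j <;> rcases k with k | k
  · exact (h0 i j k).symm
  all_goals exact h6 _ _ _

end q4a_aux

/-- Proof. Write `S i j k` for `D' (inl i) (inl j) (inl k)`. As in the proof of `finrank_TS` (`Φ` is
surjective because `QM D std g` is invertible) there are vectors `α i` with
`D(α i, e j, e k) + D(e i, α j, e k) + D(e i, e j, α k) = S i j k` where `e i = std i`
(every cubic form `∑ S i j k x i x j x k` is `3 ∑ i, x i q_i` with quadratic forms `q_i`, for instance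
`q_i = (1/3) ∑ S i j k x j x k`, and `q_i = D(x, x, α i)` for some `α i`). Let
`a r (inl i) = α i r` and `a r (inr b) = 0`. Then
`D1 i j l = D' i j l - ∑ r, (a r i * D r j l + a r j * D i r l + a r l * D i j r)` is symmetric and
vanishes when all three indices are `inl`, so `D1 = symvan ((1/6) D1)`. -/
theorem dir_surj {m : ℕ} {ω : Type*} [Fintype ω] {K : Type*} [Field K] [CharZero K]
    (D : Ten (Ix m ω) K) (hD : IsSym D) (g : Pr m → Ix m ω → K)
    (hdet : (QM D (std m ω K) g).det ≠ 0) (D' : Ten (Ix m ω) K) (hD' : IsSym D') :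
    ∃ (c : Ten (Ix m ω) K) (a : Matrix (Ix m ω) (Ix m ω) K), ∀ i j l, D' i j l =
      symvan c i j l + ∑ r, (a r i * D r j l + a r j * D i r l + a r l * D i j r) := by
  have hS : ∀ i : Fin m, ∃ y : Ix m ω → K, ∀ j k, tri D (std m ω K j) (std m ω K k) y =
      D' (.inl i) (.inl j) (.inl k) / 3 := by
    intro i
    refine q4a_alpha D hD g hdet (fun j k => D' (.inl i) (.inl j) (.inl k) / 3) fun j k => ?_
    rw [hD'.swap23]
  choose α hα using hS
  have hα1 : ∀ i j k, ∑ r, α i r * D r (.inl j) (.inl k) = D' (.inl i) (.inl j) (.inl k) / 3 := by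
    intro i j k
    rw [← q4a_std, hD.tri12, hD.tri23, hα]
  set a : Matrix (Ix m ω) (Ix m ω) K := Matrix.of fun r l => Sum.elim (fun i => α i r)
    (fun _ => 0) l with ha
  have ha1 : ∀ r i, a r (.inl i) = α i r := fun r i => rfl
  set E : Ten (Ix m ω) K := fun i j l =>
    D' i j l - ∑ r, (a r i * D r j l + a r j * D i r l + a r l * D i j r) with hE
  have hEs : IsSym E := by
    constructor
    · intro i j l
      simp only [hE]
      rw [hD'.swap12 i j l]
      congr 1
      refine Finset.sum_congr rfl fun r _ => ?_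
      rw [hD.swap12 r j l, hD.swap12 i r l, hD.swap12 i j r]
      ring
    · intro i j l
      simp only [hE]
      rw [hD'.swap23 i j l]
      congr 1
      refine Finset.sum_congr rfl fun r _ => ?_
      rw [hD.swap23 r j l, hD.swap23 i r l, hD.swap23 i j r]
      ring
  have hE0 : ∀ i j k, E (.inl i) (.inl j) (.inl k) = 0 := by
    intro i j k
    simp only [hE, ha1]
    rw [Finset.sum_add_distrib, Finset.sum_add_distrib, hα1]
    have e1 : ∑ r, α j r * D (.inl i) r (.inl k) = D' (.inl i) (.inl j) (.inl k) / 3 := by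
      rw [hD'.swap12, ← hα1]
      refine Finset.sum_congr rfl fun r _ => ?_
      rw [hD.swap12]
    have e2 : ∑ r, α k r * D (.inl i) (.inl j) r = D' (.inl i) (.inl j) (.inl k) / 3 := by
      rw [hD'.swap23, hD'.swap12, ← hα1]
      refine Finset.sum_congr rfl fun r _ => ?_
      rw [hD.swap23, hD.swap12]
    rw [e1, e2]
    ring
  refine ⟨fun i j k => E i j k / 6, a, fun i j l => ?_⟩
  rw [q4a_symvan E hEs hE0]
  simp only [hE]
  ring

end Pool.Agent.Helper76.UF
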