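import Pool.Agent.Helper76.UF.Sq.Q1
import Pool.Agent.Helper76.UF.Sq.Q4a

/-!
# Linear spaces in cubic hypersurfaces: dominance of the universal family
-/

namespace Pool.Agent.Helper76.UF

open MvPolynomial

section q4

/-- the evaluation of a polynomial at a point of the dual numbers -/
noncomputable def q4_ev {σ K' : Type*} [Field K'] [CharZero K'] (x v : σ → K') :
    MvPolynomial σ ℚ →+* DualNumber K' :=
  eval₂Hom ((TrivSqZeroExt.inlHom K' K').comp (algebraMap ℚ K')) (du x v)

theorem q4_ev_fst {σ K' : Type*} [Field K'] [CharZero K'] (x v : σ → K')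
    (p : MvPolynomial σ ℚ) : (q4_ev x v p).fst = aeval x p := by
  have h : ((TrivSqZeroExt.fstHom K' K' K' : DualNumber K' →+* K').comp (q4_ev x v)) =
      (aeval x : MvPolynomial σ ℚ →ₐ[ℚ] K').toRingHom := by
    apply MvPolynomial.ringHom_ext
    · intro r
      simp [q4_ev]
    · intro i
      simp [q4_ev, fst_du]
  exact congrArg (fun f : MvPolynomial σ ℚ →+* K' => f p) h

theorem q4_ev_snd {σ K' : Type*} [Fintype σ] [Field K'] [CharZero K'] (x v : σ → K')
    (p : MvPolynomial σ ℚ) :
    ∑ s, v s * aeval x (pderiv s p) = (q4_ev x v p).snd := by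
  classical
  induction p using MvPolynomial.induction_on with
  | C a => simp [q4_ev]
  | add p q hp hq =>
    rw [map_add, TrivSqZeroExt.snd_add, ← hp, ← hq, ← Finset.sum_add_distrib]
    refine Finset.sum_congr rfl fun s _ => ?_
    rw [map_add, map_add, mul_add]
  | mul_X p i hp =>
    have h1 : q4_ev x v (X i : MvPolynomial σ ℚ) = du x v i := by simp [q4_ev]
    rw [map_mul, h1, TrivSqZeroExt.snd_mul, fst_du, snd_du, q4_ev_fst, ← hp]
    have h2 : ∀ s, v s * aeval x (pderiv s (p * X i)) =
        x i * (v s * aeval x (pderiv s p)) + (if s = i then aeval x p * v s else 0) := by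
      intro s
      rw [Derivation.leibniz, pderiv_X, smul_eq_mul, smul_eq_mul, map_add, map_mul, map_mul,
        aeval_X, Pi.single_apply]
      split_ifs with h h' h'
      · simp
        ring
      · exact absurd h.symm h'
      · exact absurd h'.symm h
      · simp
        ring
    simp only [h2]
    rw [Finset.sum_add_distrib, ← Finset.mul_sum, Finset.sum_ite_eq' Finset.univ i]
    simp
    ring

theorem q4_coeff_cub {ι R : Type*} [Fintype ι] [CommRing R] (D : Ten ι R) (e : ι →₀ ℕ) :
    coeff e (cub D) = ∑ i, ∑ j, ∑ k,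
      (open scoped Classical in if Finsupp.single i 1 + Finsupp.single j 1 + Finsupp.single k 1 = e
        then D i j k else 0) := by
  classical
  rw [cub]
  simp only [coeff_sum]
  refine Finset.sum_congr rfl fun i _ => Finset.sum_congr rfl fun j _ =>
    Finset.sum_congr rfl fun k _ => ?_
  have h : (C (D i j k) * X i * X j * X k : MvPolynomial ι R) =
      monomial (Finsupp.single i 1 + Finsupp.single j 1 + Finsupp.single k 1) (D i j k) := by
    rw [X, X, X, C_mul_monomial, monomial_mul, monomial_mul]
    simp
  rw [h, coeff_monomial]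

theorem q4_map_coeff {ι R B : Type*} [Fintype ι] [CommRing R] [CommRing B] (φ : R →+* B)
    (D : Ten ι R) (e : ι →₀ ℕ) : φ (coeff e (cub D)) = coeff e (cub (mapT φ D)) := by
  classical
  rw [q4_coeff_cub, q4_coeff_cub]
  simp only [map_sum]
  refine Finset.sum_congr rfl fun i _ => Finset.sum_congr rfl fun j _ =>
    Finset.sum_congr rfl fun k _ => ?_
  rw [apply_ite φ, map_zero]
  rfl

theorem q4_map_symvan {m : ℕ} {ω R B : Type*} [CommRing R] [CommRing B] (φ : R →+* B)
    (c : Ten (Ix m ω) R) : mapT φ (symvan c) = symvan (mapT φ c) := by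
  funext i j k
  rcases i with i | i <;> rcases j with j | j <;> rcases k with k | k <;>
    simp [mapT, symvan]

theorem q4_map_uD {m n k : ℕ} {R B : Type*} [CommRing R] [CommRing B] (φ : R →+* B)
    (x : Uv m n k → R) : mapT φ (uD x) = uD (fun s => φ (x s)) := by
  rw [uD, mapT_compT, q4_map_symvan]
  rfl

theorem q4_tri_single {ι A : Type*} [Fintype ι] [DecidableEq ι] [CommRing A] (D : Ten ι A)
    (a b c : ι) : tri D (Pi.single a 1) (Pi.single b 1) (Pi.single c 1) = D a b c := by
  rw [tri, Finset.sum_eq_single a, Finset.sum_eq_single b, Finset.sum_eq_single c]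
  · simp
  · intro k _ hk
    simp [hk]
  · intro h
    exact absurd (Finset.mem_univ _) h
  · intro j _ hj
    simp [hj]
  · intro h
    exact absurd (Finset.mem_univ _) h
  · intro i _ hi
    simp [hi]
  · intro h
    exact absurd (Finset.mem_univ _) h

theorem q4_std {m : ℕ} {ω A : Type*} [DecidableEq ω] [CommRing A] (i : Fin m) :
    std m ω A i = Pi.single (Sum.inl i) 1 := by
  funext l
  rcases l with l | l
  · by_cases h : l = i
    · subst h
      simp [std]
    · simp [std, h]
  · simp [std]

theorem q4_tri_snd {ι K : Type*} [Fintype ι] [Field K] (D : Ten ι (DualNumber K))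
    (x y z : ι → DualNumber K) : (tri D x y z).snd =
      tri (fun i j k => (D i j k).snd) (fun i => (x i).fst) (fun i => (y i).fst)
        (fun i => (z i).fst) +
      tri (fun i j k => (D i j k).fst) (fun i => (x i).snd) (fun i => (y i).fst)
        (fun i => (z i).fst) +
      tri (fun i j k => (D i j k).fst) (fun i => (x i).fst) (fun i => (y i).snd)
        (fun i => (z i).fst) +
      tri (fun i j k => (D i j k).fst) (fun i => (x i).fst) (fun i => (y i).fst)
        (fun i => (z i).snd) := by
  simp only [tri, TrivSqZeroExt.snd_sum, ← Finset.sum_add_distrib]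
  refine Finset.sum_congr rfl fun i _ => Finset.sum_congr rfl fun j _ =>
    Finset.sum_congr rfl fun k _ => ?_
  simp only [TrivSqZeroExt.snd_mul, TrivSqZeroExt.fst_mul, smul_eq_mul, op_smul_eq_mul]
  ring

theorem q4_tri_left {ι A : Type*} [Fintype ι] [DecidableEq ι] [CommRing A] (D : Ten ι A)
    (x : ι → A) (b c : ι) : tri D x (Pi.single b 1) (Pi.single c 1) = ∑ r, x r * D r b c := by
  rw [tri]
  refine Finset.sum_congr rfl fun i _ => ?_
  rw [Finset.sum_eq_single b, Finset.sum_eq_single c]
  · simp
    ring
  · intro k _ hk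
    simp [hk]
  · intro h
    exact absurd (Finset.mem_univ _) h
  · intro j _ hj
    simp [hj]
  · intro h
    exact absurd (Finset.mem_univ _) h

end q4

/-- Proof. Use `algInd_of_point` at the point `x` of `Uv m n k → K'` with
`x (inl (i, j, l)) = D i j l / 6` (so that `symvan` of it is `D`, since `D` vanishes on the standard
subspace: `tri D (std i) (std j) (std l) = D (inl i) (inl j) (inl l)`), with matrix `uh x = 1` and the
parameters `0`. Given `b`, let `D'` be the symmetric form with `coeff e (cub D') = b e` for all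
`e` of degree 3: `D' i j l = b e * (∏ i, (e i)!) / 6` where `e` is the sum of the three unit vectors
(the number of orderings of a multiset is `6 / ∏ (e i)!`; or divide `b e` by the number of
triples `(i, j, l)` with sum of unit vectors `e`). Take `c`, `a` from `dir_surj` and let `v` have the
coordinates `c`, `a` and `0`. The sum `∑ s, v s * aeval x (pderiv s (f e))` is the second part of
`aeval (du x v) (f e)` (`aeval` of a polynomial at a point of the dual numbers), and
`aeval (du x v) (coeff e (cub (uD X))) = coeff e (cub (uD (du x v)))`, where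
`uD (du x v) i j l = D i j l + ε (symvan c i j l + ∑ r, (a r i * D r j l + ..)) =
D i j l + ε D' i j l`. -/
theorem dom {K' : Type*} [Field K'] [CharZero K'] (m n k : ℕ) (D : Ten (Ix m (Fin n)) K')
    (hD : IsSym D) (h0 : VanOn D (std m _ K')) (g : Pr m → Ix m (Fin n) → K')
    (hdet : (QM D (std m _ K') g).det ≠ 0) :
    AlgebraicIndependent ℚ (fun e : {e : Ix m (Fin n) →₀ ℕ // e.degree = 3} =>
      coeff e.1 (cub (uD (X : Uv m n k → MvPolynomial (Uv m n k) ℚ)))) := by
  classical
  -- the point
  obtain ⟨x, hx1, hx2⟩ : ∃ x : Uv m n k → K', (∀ i j l, x (.inl (i, j, l)) = D i j l / 6) ∧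
      (∀ i j, x (.inr (.inl (i, j))) = (1 : Matrix (Ix m (Fin n)) (Ix m (Fin n)) K') i j) := by
    refine ⟨fun s => match s with
      | .inl (i, j, l) => D i j l / 6
      | .inr (.inl (i, j)) => (1 : Matrix (Ix m (Fin n)) (Ix m (Fin n)) K') i j
      | .inr (.inr _) => 0, fun _ _ _ => rfl, fun _ _ => rfl⟩
  apply algInd_of_point _ x
  intro b
  -- the number of orderings
  obtain ⟨N, hN⟩ : ∃ N : (Ix m (Fin n) →₀ ℕ) → K', ∀ e, N e = ∑ i, ∑ j, ∑ l,
      if Finsupp.single i 1 + Finsupp.single j 1 + Finsupp.single l 1 = e then (1 : K') else 0 :=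
    ⟨_, fun _ => rfl⟩
  have hN0 : ∀ i j l : Ix m (Fin n),
      N (Finsupp.single i 1 + Finsupp.single j 1 + Finsupp.single l 1) ≠ 0 := by
    intro i j l
    rw [hN]
    obtain ⟨M, hM⟩ : ∃ M : ℕ, M = ∑ i', ∑ j', ∑ l',
        if Finsupp.single i' 1 + Finsupp.single j' 1 + Finsupp.single l' 1 =
          (Finsupp.single i 1 + Finsupp.single j 1 + Finsupp.single l 1 : Ix m (Fin n) →₀ ℕ)
        then 1 else 0 := ⟨_, rfl⟩
    have h1 : 1 ≤ M := by
      have e1 := Finset.single_le_sum (f := fun i' => ∑ j', ∑ l',
        if Finsupp.single i' 1 + Finsupp.single j' 1 + Finsupp.single l' 1 =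
          (Finsupp.single i 1 + Finsupp.single j 1 + Finsupp.single l 1 : Ix m (Fin n) →₀ ℕ)
        then 1 else 0) (fun _ _ => Nat.zero_le _) (Finset.mem_univ i)
      have e2 := Finset.single_le_sum (f := fun j' => ∑ l',
        if Finsupp.single i 1 + Finsupp.single j' 1 + Finsupp.single l' 1 =
          (Finsupp.single i 1 + Finsupp.single j 1 + Finsupp.single l 1 : Ix m (Fin n) →₀ ℕ)
        then 1 else 0) (fun _ _ => Nat.zero_le _) (Finset.mem_univ j)
      have e3 := Finset.single_le_sum (f := fun l' =>
        if Finsupp.single i 1 + Finsupp.single j 1 + Finsupp.single l' 1 =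
          (Finsupp.single i 1 + Finsupp.single j 1 + Finsupp.single l 1 : Ix m (Fin n) →₀ ℕ)
        then 1 else 0) (fun _ _ => Nat.zero_le _) (Finset.mem_univ l)
      simp only [if_true] at e3
      rw [hM]
      exact e3.trans (e2.trans e1)
    have h2 : (M : K') = ∑ i', ∑ j', ∑ l',
        if Finsupp.single i' 1 + Finsupp.single j' 1 + Finsupp.single l' 1 =
          (Finsupp.single i 1 + Finsupp.single j 1 + Finsupp.single l 1 : Ix m (Fin n) →₀ ℕ)
        then (1 : K') else 0 := by
      rw [hM]
      push_cast
      rfl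
    rw [← h2]
    exact_mod_cast (by omega : M ≠ 0)
  have hdeg : ∀ i j l : Ix m (Fin n),
      (Finsupp.single i 1 + Finsupp.single j 1 + Finsupp.single l 1 : Ix m (Fin n) →₀ ℕ).degree =
        3 := by
    intro i j l
    simp [Finsupp.degree_single]
  -- the form
  obtain ⟨D', hD'⟩ : ∃ D' : Ten (Ix m (Fin n)) K', ∀ i j l, D' i j l =
      b ⟨Finsupp.single i 1 + Finsupp.single j 1 + Finsupp.single l 1, hdeg i j l⟩ /
        N (Finsupp.single i 1 + Finsupp.single j 1 + Finsupp.single l 1) := ⟨_, fun _ _ _ => rfl⟩
  have hsym : IsSym D' := by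
    constructor
    · intro i j l
      have : (Finsupp.single i 1 + Finsupp.single j 1 + Finsupp.single l 1 :
          Ix m (Fin n) →₀ ℕ) = Finsupp.single j 1 + Finsupp.single i 1 + Finsupp.single l 1 := by
        rw [add_comm (Finsupp.single i 1 : Ix m (Fin n) →₀ ℕ)]
      rw [hD', hD']
      simp only [this]
    · intro i j l
      have : (Finsupp.single i 1 + Finsupp.single j 1 + Finsupp.single l 1 :
          Ix m (Fin n) →₀ ℕ) = Finsupp.single i 1 + Finsupp.single l 1 + Finsupp.single j 1 := by
        rw [add_right_comm]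
      rw [hD', hD']
      simp only [this]
  obtain ⟨c, a, hca⟩ := dir_surj D hD g hdet D' hsym
  obtain ⟨v, hv1, hv2⟩ : ∃ v : Uv m n k → K', (∀ i j l, v (.inl (i, j, l)) = c i j l) ∧
      (∀ i j, v (.inr (.inl (i, j))) = a i j) := by
    refine ⟨fun s => match s with
      | .inl (i, j, l) => c i j l
      | .inr (.inl (i, j)) => a i j
      | .inr (.inr _) => 0, fun _ _ _ => rfl, fun _ _ => rfl⟩
  refine ⟨v, fun e => ?_⟩
  rw [q4_ev_snd, q4_map_coeff, q4_map_uD]
  have e0 : (fun s => q4_ev x v (X s : MvPolynomial (Uv m n k) ℚ)) = du x v := by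
    funext s
    simp [q4_ev]
  rw [e0]
  -- the values of the symmetrized form
  have hDinl : ∀ i j l : Fin m, D (.inl i) (.inl j) (.inl l) = 0 := by
    intro i j l
    have := h0 i j l
    rwa [q4_std, q4_std, q4_std, q4_tri_single] at this
  have hfst : ∀ i j l, (symvan (fun i j l => du x v (.inl (i, j, l))) i j l).fst = D i j l := by
    have s1 : ∀ i j l, D i j l + D i l j + D j i l + D j l i + D l i j + D l j i =
        6 * D i j l := by
      intro i j l
      have t1 : D i l j = D i j l := hD.swap23 _ _ _
      have t2 : D j i l = D i j l := hD.swap12 _ _ _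
      have t3 : D j l i = D i j l := by rw [hD.swap23, t2]
      have t4 : D l i j = D i j l := by rw [hD.swap12, t1]
      have t5 : D l j i = D i j l := by rw [hD.swap12, t3]
      rw [t1, t2, t3, t4, t5]
      ring
    intro i j l
    rcases i with i | i <;> rcases j with j | j <;> rcases l with l | l
    · simp only [symvan, TrivSqZeroExt.fst_zero, hDinl]
    all_goals
      simp only [symvan, TrivSqZeroExt.fst_add, fst_du, hx1]
      rw [← add_div, ← add_div, ← add_div, ← add_div, ← add_div, s1]
      field_simp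
  have hsnd : ∀ i j l, (symvan (fun i j l => du x v (.inl (i, j, l))) i j l).snd =
      symvan c i j l := by
    intro i j l
    rcases i with i | i <;> rcases j with j | j <;> rcases l with l | l <;>
      simp only [symvan, TrivSqZeroExt.snd_add, snd_du, hv1, TrivSqZeroExt.snd_zero]
  have hcol : ∀ i : Ix m (Fin n), (fun r => (uh (du x v) r i).fst) = Pi.single i 1 := by
    intro i
    funext r
    simp only [uh, Matrix.of_apply, fst_du, hx2, Matrix.one_apply, Pi.single_apply]
  have hcol' : ∀ i : Ix m (Fin n), (fun r => (uh (du x v) r i).snd) = fun r => a r i := by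
    intro i
    funext r
    simp only [uh, Matrix.of_apply, snd_du, hv2]
  have hkey : ∀ i j l, (uD (du x v) i j l).snd = D' i j l := by
    intro i j l
    rw [hca, uD, compT, q4_tri_snd]
    simp only [hcol, hcol', hfst, hsnd]
    rw [q4_tri_single, q4_tri_left, hD.tri12 (Pi.single i 1), q4_tri_left,
      hD.tri23 (Pi.single i 1), hD.tri12 (Pi.single i 1), q4_tri_left, Finset.sum_add_distrib,
      Finset.sum_add_distrib]
    have u1 : ∀ r, D r i l = D i r l := fun r => hD.swap12 _ _ _
    have u2 : ∀ r, D r i j = D i j r := fun r => by rw [hD.swap12, hD.swap23]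
    simp only [u1, u2]
    ring
  rw [q4_coeff_cub]
  rw [TrivSqZeroExt.snd_sum]
  simp only [TrivSqZeroExt.snd_sum]
  have h3 : ∀ (i j l : Ix m (Fin n)) (inst : Decidable
      (Finsupp.single i 1 + Finsupp.single j 1 + Finsupp.single l 1 = e.1)),
      (@ite _ (Finsupp.single i 1 + Finsupp.single j 1 + Finsupp.single l 1 = e.1) inst
        (uD (du x v) i j l) 0).snd =
      (b e / N e.1) *
        (if Finsupp.single i 1 + Finsupp.single j 1 + Finsupp.single l 1 = e.1
          then (1 : K') else 0) := by
    intro i j l inst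
    by_cases h : Finsupp.single i 1 + Finsupp.single j 1 + Finsupp.single l 1 = e.1
    · rw [if_pos h, if_pos h, hkey, hD', mul_one]
      have h4 : (⟨Finsupp.single i 1 + Finsupp.single j 1 + Finsupp.single l 1, hdeg i j l⟩ :
          {e : Ix m (Fin n) →₀ ℕ // e.degree = 3}) = e := Subtype.ext h
      rw [h4, h]
    · rw [if_neg h, if_neg h]
      simp
  refine Eq.trans (Finset.sum_congr rfl fun i _ => Finset.sum_congr rfl fun j _ =>
    Finset.sum_congr rfl fun l _ => h3 i j l _) ?_
  simp only [← Finset.mul_sum]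
  refine Eq.trans (congrArg (fun t => b e / N e.1 * t) (a₂ := N e.1) ?_) ?_
  · rw [hN]
    refine Finset.sum_congr rfl fun i _ => Finset.sum_congr rfl fun j _ =>
      Finset.sum_congr rfl fun l _ => ?_
    by_cases h : Finsupp.single i 1 + Finsupp.single j 1 + Finsupp.single l 1 = e.1
    · rw [if_pos h, if_pos h]
    · rw [if_neg h, if_neg h]
  obtain ⟨i, j, l, hijl⟩ : ∃ i j l : Ix m (Fin n),
      (Finsupp.single i 1 + Finsupp.single j 1 + Finsupp.single l 1) = e.1 := by
    have h5 : Multiset.card (Finsupp.toMultiset e.1) = 3 := by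
      rw [Finsupp.card_toMultiset]
      exact e.2
    obtain ⟨i, j, l, h6⟩ := Multiset.card_eq_three.1 h5
    refine ⟨i, j, l, ?_⟩
    apply Finsupp.orderIsoMultiset.injective
    rw [Finsupp.coe_orderIsoMultiset]
    rw [h6, map_add, map_add, Finsupp.toMultiset_single, Finsupp.toMultiset_single,
      Finsupp.toMultiset_single]
    simp only [one_smul, Multiset.insert_eq_cons]
    rfl
  have h7 : N e.1 ≠ 0 := by
    rw [← hijl]
    exact hN0 i j l
  field_simp

end Pool.Agent.Helper76.UF
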