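import Pool.Agent.Helper76.UF.Defs3

/-!
# Linear spaces in cubic hypersurfaces: the rank of the Jacobian matrix
-/

namespace Pool.Agent.Helper76.UF

variable {m : ℕ} {ω : Type*} [Fintype ω]

section q8a_lin

variable {K : Type*} [Field K] {ι κ : Type*}

theorem q8a_rows [Finite ι] (M : Matrix ι κ K) (r : ℕ)
    (h : r ≤ Module.finrank K (Submodule.span K (Set.range M.row))) :
    ∃ t : Fin r → ι, LinearIndependent K (fun i => M (t i)) := by
  have := Module.Finite.span_of_finite K (Set.finite_range M.row)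
  obtain ⟨f, hf, -, hli⟩ := Submodule.exists_fun_fin_finrank_span_eq K (Set.range M.row)
  choose t ht using hf
  refine ⟨fun i => t (Fin.castLE h i), ?_⟩
  have h2 := hli.comp (Fin.castLE h) (Fin.castLE_injective h)
  have h3 : (fun i => M (t (Fin.castLE h i))) = f ∘ Fin.castLE h := by
    funext i
    exact ht _
  rw [h3]
  exact h2

theorem q8a_minor [Fintype ι] [Fintype κ] (M : Matrix ι κ K) (r : ℕ) :
    r ≤ M.rank ↔ ∃ (t : Fin r → ι) (q : Fin r → κ),
      (Matrix.of fun i j => M (t i) (q j)).det ≠ 0 := by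
  constructor
  · intro h
    rw [Matrix.rank_eq_finrank_span_row] at h
    obtain ⟨t, ht⟩ := q8a_rows M r h
    have h1 : (M.submatrix t id).rank = r := by
      have h2 : LinearIndependent K (M.submatrix t id).row := ht
      rw [h2.rank_matrix, Fintype.card_fin]
    rw [← Matrix.rank_transpose, Matrix.rank_eq_finrank_span_row] at h1
    obtain ⟨q, hq⟩ := q8a_rows (M.submatrix t id).transpose r h1.ge
    refine ⟨t, q, ?_⟩
    have h3 : LinearIndependent K
        (Matrix.of fun i j => M (t i) (q j)).transpose.row := hq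
    rw [Matrix.linearIndependent_rows_iff_isUnit, Matrix.isUnit_iff_isUnit_det,
      Matrix.det_transpose] at h3
    exact h3.ne_zero
  · rintro ⟨t, q, h⟩
    have h1 := Matrix.rank_of_det_ne_zero h
    rw [Fintype.card_fin] at h1
    rw [← h1]
    exact Matrix.rank_submatrix_le M t q

end q8a_lin

theorem q8a_loc {A : Type*} [CommRing A] (D : Ten (Ix m ω) A) (U : Fin m → Ix m ω → A)
    (π : ℕ → Par m ω → A) (a : Fin m → Ix m ω → A) (v v' : ℕ → Par m ω → A) (k : ℕ)
    (h : ∀ j < k, v j = v' j) : dch D U π a v k = dch D U π a v' k := by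
  induction k with
  | zero => rw [dch_zero, dch_zero]
  | succ k ih =>
    rw [dch_succ, dch_succ, ih fun j hj => h j (by omega), h k (by omega)]

theorem q8a_sum {A : Type*} [CommRing A] (D : Ten (Ix m ω) A) (U : Fin m → Ix m ω → A)
    (π : ℕ → Par m ω → A) (v : ℕ → Par m ω → A) (k : ℕ) :
    dch D U π 0 v k = ∑ t : Fin k × Par m ω, v t.1 t.2 • dch D U π 0 (un t) k := by
  classical
  have hL : ∀ v : ℕ → Par m ω → A, dch D U π 0 v k =
      ((dchL D U π k).comp (LinearMap.inr A _ _)) v := fun v => rfl
  have h1 : dch D U π 0 v k =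
      dch D U π 0 (∑ t : Fin k × Par m ω, v t.1 t.2 • un t) k := by
    refine q8a_loc D U π 0 _ _ k fun j hj => ?_
    funext p
    rw [Finset.sum_apply, Finset.sum_apply]
    rw [Finset.sum_eq_single (⟨j, hj⟩, p)]
    · simp [un]
    · rintro ⟨⟨j', hj'⟩, p'⟩ - hne
      have h2 : ¬ (j = j' ∧ p = p') := by
        rintro ⟨rfl, rfl⟩
        exact hne rfl
      simp [un, h2]
    · intro h
      exact absurd (Finset.mem_univ _) h
  rw [h1, hL, map_sum]
  refine Finset.sum_congr rfl fun t _ => ?_
  rw [map_smul, ← hL]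

theorem q8a_span {K : Type*} [Field K] (D : Ten (Ix m ω) K) (U : Fin m → Ix m ω → K)
    (π : ℕ → Par m ω → K) (k : ℕ) : Sn D U π k =
      Submodule.span K (Set.range fun t : Fin k × Par m ω => dch D U π 0 (un t) k) := by
  refine le_antisymm ?_ ?_
  · intro b hb
    obtain ⟨v, rfl⟩ := (mem_Sn D U π k b).1 hb
    rw [q8a_sum]
    exact Submodule.sum_mem _ fun t _ => Submodule.smul_mem _ _
      (Submodule.subset_span ⟨t, rfl⟩)
  · rw [Submodule.span_le]
    rintro b ⟨t, rfl⟩
    exact (mem_Sn D U π k _).2 ⟨un t, rfl⟩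

theorem q8a_rank {K : Type*} [Field K] (D : Ten (Ix m ω) K) (U : Fin m → Ix m ω → K)
    (π : ℕ → Par m ω → K) (k : ℕ) : Module.finrank K (Sn D U π k) =
      (Matrix.of (jac D U π k)).rank := by
  have h1 : (Sn D U π k).map (LinearEquiv.curry K K (Fin m) (Ix m ω)).symm.toLinearMap =
      Submodule.span K (Set.range (Matrix.of (jac D U π k)).row) := by
    rw [q8a_span, Submodule.map_span]
    congr 1
    ext b
    constructor
    · rintro ⟨-, ⟨t, rfl⟩, rfl⟩
      exact ⟨t, rfl⟩
    · rintro ⟨t, rfl⟩
      exact ⟨_, ⟨t, rfl⟩, rfl⟩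
  rw [Matrix.rank_eq_finrank_span_row, ← h1]
  exact (LinearEquiv.finrank_map_eq (LinearEquiv.curry K K (Fin m) (Ix m ω)).symm _).symm

/-- Proof. `dch D U π 0 v k` depends only on the `v j` with `j < k` and is linear in `v`
(`dch_add`, `dch_smul`), so it is `∑ t : Fin k × Par m ω, v t.1 t.2 • dch D U π 0 (un t) k`. So
`Sn D U π k` is the span of the rows of `jac D U π k`, and the rank of a matrix over a field is at
least `r` if and only if some minor of size `r` is nonzero. -/
theorem rank_iff {K : Type*} [Field K] (D : Ten (Ix m ω) K) (U : Fin m → Ix m ω → K)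
    (π : ℕ → Par m ω → K) (k r : ℕ) :
    r ≤ Module.finrank K (Sn D U π k) ↔ ∃ (t : Fin r → Fin k × Par m ω)
      (q : Fin r → Fin m × Ix m ω), (Matrix.of fun i j => jac D U π k (t i) (q j)).det ≠ 0 := by
  rw [q8a_rank, q8a_minor]
  rfl

/-- Proof. `map_dch`. -/
theorem map_jac {A B : Type*} [CommRing A] [CommRing B] (f : A →+* B) (D : Ten (Ix m ω) A)
    (U : Fin m → Ix m ω → A) (π : ℕ → Par m ω → A) (k : ℕ) (t : Fin k × Par m ω)
    (q : Fin m × Ix m ω) : f (jac D U π k t q) =
      jac (mapT f D) (fun i l => f (U i l)) (fun j p => f (π j p)) k t q := by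
  rw [jac, map_dch, jac]
  have h1 : (fun (i : Fin m) (l : Ix m ω) => f ((0 : Fin m → Ix m ω → A) i l)) = 0 := by
    funext i l
    exact map_zero f
  have h2 : (fun (j : ℕ) (p : Par m ω) => f (un t j p)) = un t := by
    funext j p
    rw [un, un]
    split_ifs
    · exact map_one f
    · exact map_zero f
  rw [h1, h2]

theorem q8a_chain {A B : Type*} [CommRing A] [CommRing B] (f : A →+* B) (D : Ten (Ix m ω) A)
    (U : Fin m → Ix m ω → A) (π : ℕ → Par m ω → A) (i : ℕ) :
    chain (mapT f D) (fun i l => f (U i l)) (fun a p => f (π a p)) i =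
      fun a l => f (chain D U π i a l) := by
  funext a l
  exact (map_chain D U f π i a l).symm

theorem q8a_det {A B : Type*} [CommRing A] [CommRing B] (f : A →+* B) (D : Ten (Ix m ω) A)
    (U : Fin m → Ix m ω → A) (π : ℕ → Par m ω → A) (i : ℕ) :
    (QM (mapT f D) (chain (mapT f D) (fun i l => f (U i l)) (fun a p => f (π a p)) i)
      (gP (fun p => f (π i p)))).det = f ((QM D (chain D U π i) (gP (π i))).det) := by
  rw [q8a_chain, RingHom.map_det]
  congr 1
  exact (map_QM D (chain D U π i) f (gP (π i))).symm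

theorem q8a_w {A B : Type*} [CommRing A] [CommRing B] (f : A →+* B) (D : Ten (Ix m ω) A)
    (U : Fin m → Ix m ω → A) (π : ℕ → Par m ω → A) (i : ℕ) :
    wf (mapT f D) (chain (mapT f D) (fun i l => f (U i l)) (fun a p => f (π a p)) i)
      (yP (mapT f D) (chain (mapT f D) (fun i l => f (U i l)) (fun a p => f (π a p)) i)
        (fun p => f (π i p))) (kP (fun p => f (π i p))) =
      f (wf D (chain D U π i) (yP D (chain D U π i) (π i)) (kP (π i))) := by
  rw [q8a_chain, map_wf]
  have h1 : yP (mapT f D) (fun a l => f (chain D U π i a l)) (fun p => f (π i p)) =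
      fun l => f (yP D (chain D U π i) (π i) l) :=
    funext fun l => (map_yP D (chain D U π i) f (π i) l).symm
  rw [h1]
  rfl

/-- Proof. The subspace `Sn` over `K` and its analogue over `M`: `rank_iff` over both; a minor that is
nonzero over `K` comes from a nonzero element of `A`, whose image in `M` is nonzero. Similarly for
the determinants and the values of `wf` in `Good` (`map_chain`, `map_QM`, `map_wf`, `map_yP`). -/
theorem good_generic {A K M : Type*} [CommRing A] [Field K] [Field M] (f : A →+* K)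
    (j : A →+* M) (hj : Function.Injective j) (D : Ten (Ix m ω) A) (U : Fin m → Ix m ω → A)
    (π : ℕ → Par m ω → A) (k r : ℕ)
    (hg : Good (mapT f D) (fun i l => f (U i l)) (fun a p => f (π a p)) k)
    (hr : r ≤ Module.finrank K
      (Sn (mapT f D) (fun i l => f (U i l)) (fun a p => f (π a p)) k)) :
    Good (mapT j D) (fun i l => j (U i l)) (fun a p => j (π a p)) k ∧
      r ≤ Module.finrank M
        (Sn (mapT j D) (fun i l => j (U i l)) (fun a p => j (π a p)) k) := by
  have key : ∀ x : A, f x ≠ 0 → j x ≠ 0 := by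
    intro x hx h
    apply hx
    have : x = 0 := hj (by rw [h, map_zero])
    rw [this, map_zero]
  refine ⟨⟨fun i hi => ?_, fun i hi => ?_⟩, ?_⟩
  · have h1 := hg.det i hi
    rw [q8a_det] at h1
    rw [q8a_det]
    exact key _ h1
  · have h1 := hg.w i hi
    rw [q8a_w] at h1
    rw [q8a_w]
    exact key _ h1
  · rw [rank_iff] at hr ⊢
    obtain ⟨t, q, h⟩ := hr
    refine ⟨t, q, ?_⟩
    have h1 : (Matrix.of fun i i' =>
        jac (mapT j D) (fun i l => j (U i l)) (fun a p => j (π a p)) k (t i) (q i')).det =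
        j ((Matrix.of fun i i' => jac D U π k (t i) (q i')).det) := by
      rw [RingHom.map_det]
      congr 1
      ext i i'
      exact (map_jac j D U π k (t i) (q i')).symm
    have h2 : (Matrix.of fun i i' =>
        jac (mapT f D) (fun i l => f (U i l)) (fun a p => f (π a p)) k (t i) (q i')).det =
        f ((Matrix.of fun i i' => jac D U π k (t i) (q i')).det) := by
      rw [RingHom.map_det]
      congr 1
      ext i i'
      exact (map_jac f D U π k (t i) (q i')).symm
    rw [h2] at h
    rw [h1]
    exact key _ h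

end Pool.Agent.Helper76.UF
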