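import Pool.Agent.Helper76.UF.Sq.Q2a

/-!
# A criterion for a prime ideal to be minimal
-/

namespace Pool.Agent.Helper76.UF

open MvPolynomial

/-- Rows without a common zero contain a square invertible matrix. -/
theorem q2_exists_rows {M σ : Type*} [Field M] [Fintype σ] [DecidableEq σ] (S : Set (σ → M))
    (h : ∀ τ : σ → M, (∀ r ∈ S, ∑ q, r q * τ q = 0) → τ = 0) :
    ∃ N : Matrix σ σ M, (∀ i, N i ∈ S) ∧ N.det ≠ 0 := by
  have hspan : Submodule.span M S = ⊤ := by
    by_contra hne
    obtain ⟨φ, hφ, hle⟩ := Submodule.exists_le_ker_of_lt_top _ (lt_top_iff_ne_top.2 hne)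
    have key : ∀ v : σ → M, φ v = ∑ q, v q * φ (Pi.single q 1) := by
      intro v
      have hv : v = ∑ q, v q • (Pi.single q 1 : σ → M) := by
        funext j
        simp [Finset.sum_apply, Pi.single_apply]
      conv_lhs => rw [hv]
      rw [map_sum]
      exact Finset.sum_congr rfl fun q _ => by rw [map_smul, smul_eq_mul]
    have h0 := h (fun q => φ (Pi.single q 1)) (fun r hr => by
      rw [← key r]
      exact hle (Submodule.subset_span hr))
    apply hφ
    refine LinearMap.ext fun v => ?_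
    rw [key v, LinearMap.zero_apply]
    exact Finset.sum_eq_zero fun q _ => by rw [congrFun h0 q, Pi.zero_apply, mul_zero]
  obtain ⟨b, hbS, hb, hli⟩ := exists_linearIndependent M S
  let B := Module.Basis.mk hli (by rw [Subtype.range_coe, hb, hspan])
  let e : σ ≃ b := (Pi.basisFun M σ).indexEquiv B
  refine ⟨fun i => (e i).1, fun i => hbS (e i).2, ?_⟩
  have h1 : LinearIndependent M (fun i : σ => (e i).1) := hli.comp e e.injective
  have h2 := Matrix.linearIndependent_rows_iff_isUnit.1 h1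
  rw [Matrix.isUnit_iff_isUnit_det] at h2
  exact h2.ne_zero

/-- The tangent hypothesis passes to a generisation. -/
theorem q2_transfer {K M E σ : Type*} [Field K] [Field M] [Algebra K M] [Field E] [Algebra K E]
    [Fintype σ] (a : σ → M) (b : σ → E) (I : Ideal (MvPolynomial σ K)) (J : Finset σ)
    (hab : ∀ f : MvPolynomial σ K, aeval b f = 0 → aeval a f = 0)
    (h : ∀ τ : σ → M, (∀ f ∈ I, ∑ q, aeval a (pderiv q f) * τ q = 0) →
      (∀ q ∈ J, τ q = 0) → τ = 0)
    (τ : σ → E) (hτ : ∀ f ∈ I, ∑ q, aeval b (pderiv q f) * τ q = 0)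
    (hJ : ∀ q ∈ J, τ q = 0) : τ = 0 := by
  classical
  let T : Set (σ → MvPolynomial σ K) :=
    {R | (∃ f ∈ I, R = fun q => pderiv q f) ∨ ∃ q ∈ J, R = Pi.single q 1}
  obtain ⟨N, hN, hdet⟩ := q2_exists_rows ((fun (R : σ → MvPolynomial σ K) q => aeval a (R q)) '' T)
    (fun τ hτ => h τ (fun f hf => hτ _ ⟨_, Or.inl ⟨f, hf, rfl⟩, rfl⟩) (fun q hq => by
      have h1 := hτ _ ⟨_, Or.inr ⟨q, hq, rfl⟩, rfl⟩
      rw [Finset.sum_eq_single q] at h1
      · simpa using h1
      · intro j _ hj
        simp [hj]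
      · intro hq'
        exact absurd (Finset.mem_univ q) hq'))
  choose R hRT hR using hN
  have hRT' : ∀ i, ∑ q, aeval b (R i q) * τ q = 0 := by
    intro i
    rcases hRT i with ⟨f, hf, h1⟩ | ⟨q, hq, h1⟩
    · rw [h1]
      exact hτ f hf
    · rw [h1, Finset.sum_eq_single q]
      · rw [hJ q hq, mul_zero]
      · intro j _ hj
        simp [hj]
      · intro hq'
        exact absurd (Finset.mem_univ q) hq'
  have hN' : N = ((aeval a : MvPolynomial σ K →ₐ[K] M).mapMatrix (Matrix.of R)) := by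
    ext i j
    rw [AlgHom.mapMatrix_apply, Matrix.map_apply, Matrix.of_apply]
    exact (congrFun (hR i) j).symm
  have hb : ((aeval b : MvPolynomial σ K →ₐ[K] E).mapMatrix (Matrix.of R)).det ≠ 0 := by
    intro h0
    rw [← AlgHom.map_det] at h0
    apply hdet
    rw [hN', ← AlgHom.map_det]
    exact hab _ h0
  refine Matrix.eq_zero_of_mulVec_eq_zero hb ?_
  funext i
  exact hRT' i

/-- All elements of the coordinate ring of a generisation are algebraic over the variables
in `J`. -/
theorem q2_algebraic {K : Type*} [Field K] [CharZero K] {σ : Type*} [Fintype σ]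
    {M : Type*} [Field M] [Algebra K M] (a : σ → M) (I : Ideal (MvPolynomial σ K)) (J : Finset σ)
    (h : ∀ τ : σ → M, (∀ f ∈ I, ∑ q, aeval a (pderiv q f) * τ q = 0) →
      (∀ q ∈ J, τ q = 0) → τ = 0)
    (Q : Ideal (MvPolynomial σ K)) [Q.IsPrime] (hIQ : I ≤ Q)
    (hQ : Q ≤ RingHom.ker (aeval a : MvPolynomial σ K →ₐ[K] M))
    (z : MvPolynomial σ K ⧸ Q) :
    IsAlgebraic (Algebra.adjoin K (Set.range fun q : J =>
      (Ideal.Quotient.mk Q (X q.1) : MvPolynomial σ K ⧸ Q))) z := by
  obtain ⟨f, rfl⟩ := Ideal.Quotient.mk_surjective z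
  let R := MvPolynomial σ K ⧸ Q
  let E := FractionRing R
  let b : σ → E := fun q => algebraMap R E (Ideal.Quotient.mk Q (X q))
  have hbf : ∀ g : MvPolynomial σ K, aeval b g = algebraMap R E (Ideal.Quotient.mk Q g) := by
    intro g
    have h1 : (aeval b : MvPolynomial σ K →ₐ[K] E) =
        (IsScalarTower.toAlgHom K R E).comp (Ideal.Quotient.mkₐ K Q) := by
      refine MvPolynomial.algHom_ext fun q => ?_
      rw [aeval_X]
      rfl
    rw [h1]
    rfl
  have hinj : Function.Injective (algebraMap R E) := IsFractionRing.injective R E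
  have hb0 : ∀ g : MvPolynomial σ K, aeval b g = 0 ↔ g ∈ Q := by
    intro g
    rw [hbf, map_eq_zero_iff _ hinj, Ideal.Quotient.eq_zero_iff_mem]
  have halg := isAlgebraic_of_tangent b I (fun g hg => (hb0 g).2 (hIQ hg)) J
    (q2_transfer a b I J (fun g hg => RingHom.mem_ker.1 (hQ ((hb0 g).1 hg))) h) f
  rw [hbf] at halg
  have halg2 : IsAlgebraic (Algebra.adjoin K (b '' (J : Set σ)))
      (algebraMap R E (Ideal.Quotient.mk Q f)) := by
    open scoped IntermediateField.algebraAdjoinAdjoin in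
    exact (IsFractionRing.isAlgebraic_iff (Algebra.adjoin K (b '' (J : Set σ)))
      (IntermediateField.adjoin K (b '' (J : Set σ))) E).2 halg
  have hset : (IsScalarTower.toAlgHom K R E : R → E) '' (Set.range fun q : J =>
      (Ideal.Quotient.mk Q (X q.1) : R)) = b '' (J : Set σ) := by
    ext y
    constructor
    · rintro ⟨_, ⟨q, rfl⟩, rfl⟩
      exact ⟨q.1, q.2, rfl⟩
    · rintro ⟨q, hq, rfl⟩
      exact ⟨_, ⟨⟨q, hq⟩, rfl⟩, rfl⟩
  have hmap : (Algebra.adjoin K (Set.range fun q : J =>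
      (Ideal.Quotient.mk Q (X q.1) : R))).map (IsScalarTower.toAlgHom K R E) =
      Algebra.adjoin K (b '' (J : Set σ)) := by
    rw [AlgHom.map_adjoin, hset]
  rw [← hmap] at halg2
  set A0 := Algebra.adjoin K (Set.range fun q : J => (Ideal.Quotient.mk Q (X q.1) : R)) with hA0
  refine IsAlgebraic.of_ringHom_of_comp_eq (R := A0) (S := A0.map (IsScalarTower.toAlgHom K R E))
    (A := R) (B := E)
    ((((IsScalarTower.toAlgHom K R E).comp A0.val).codRestrict
      (A0.map (IsScalarTower.toAlgHom K R E)) (fun x => ⟨x.1, x.2, rfl⟩) :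
        A0 →ₐ[K] A0.map (IsScalarTower.toAlgHom K R E)) : A0 →+* _)
    (algebraMap R E) halg2 ?_ hinj ?_
  · rintro ⟨y, x, hx, rfl⟩
    exact ⟨⟨x, hx⟩, rfl⟩
  · rfl

/-- Proof. Let `P` be the kernel of `aeval a`. It is prime and contains `I`. Let `Q` be a prime
ideal with `I ≤ Q ≤ P`, `E` the field of fractions of `MvPolynomial σ K ⧸ Q`, and `b q` the image of
`X q` in `E`. Hypothesis `h` holds with `b`, `E` in place of `a`, `M`: by linear algebra, `h` means
that for the columns `q ∉ J` the matrix `(aeval a (pderiv q f))_(f ∈ I, q ∉ J)` has rank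
`#(σ ∖ J)`, so some minor of this size, `aeval a g` with `g` a polynomial, is nonzero; so `g ∉ P`,
`g ∉ Q` and `aeval b g ≠ 0`. By `isAlgebraic_of_tangent` every `aeval b f` is algebraic over
`K(b q : q ∈ J)`. Let `f ∈ P` and suppose that `f ∉ Q`. Then `aeval b f ≠ 0` is a root of a nonzero
polynomial in `Y` with coefficients in `K[b q : q ∈ J]`, which we can take with nonzero constant
coefficient `c(b)` (divide by a power of `Y`). So `∑ i, G i * f ^ i ∈ Q ≤ P` with polynomials `G i` in
the variables of `J` and `G 0 ≠ 0` as its value at `b` is not zero; as `f ∈ P`, `G 0 ∈ P`, so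
`aeval a (G 0) = 0`, which contradicts `hJ`. So `P = Q`. The second claim is the case `Q = P`. -/
theorem minimal_of_tangent {K : Type*} [Field K] [CharZero K] {σ : Type*} [Fintype σ]
    {M : Type*} [Field M] [Algebra K M] (a : σ → M) (I : Ideal (MvPolynomial σ K))
    (hI : ∀ f ∈ I, aeval a f = 0) (J : Finset σ)
    (hJ : AlgebraicIndependent K (fun q : J => a q))
    (h : ∀ τ : σ → M, (∀ f ∈ I, ∑ q, aeval a (pderiv q f) * τ q = 0) →
      (∀ q ∈ J, τ q = 0) → τ = 0) :
    RingHom.ker (aeval a : MvPolynomial σ K →ₐ[K] M) ∈ I.minimalPrimes ∧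
      IsTranscendenceBasis K (fun q : J =>
        (Ideal.Quotient.mk (RingHom.ker (aeval a : MvPolynomial σ K →ₐ[K] M)) (X q.1) :
          MvPolynomial σ K ⧸ RingHom.ker (aeval a : MvPolynomial σ K →ₐ[K] M))) := by
  set P := RingHom.ker (aeval a : MvPolynomial σ K →ₐ[K] M) with hP
  have hPprime : P.IsPrime := RingHom.ker_isPrime _
  have hIP : I ≤ P := fun f hf => RingHom.mem_ker.2 (hI f hf)
  have hind : ∀ G : MvPolynomial J K, rename (fun q : J => q.1) G ∈ P → G = 0 := by
    intro G hG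
    have h2 : aeval a (rename (fun q : J => q.1) G) = 0 := RingHom.mem_ker.1 hG
    rw [aeval_rename] at h2
    exact (algebraicIndependent_iff.1 hJ) G h2
  have hmk : ∀ (Q : Ideal (MvPolynomial σ K)) (G : MvPolynomial J K),
      aeval (fun q : J => (Ideal.Quotient.mk Q (X q.1) : MvPolynomial σ K ⧸ Q)) G =
        Ideal.Quotient.mk Q (rename (fun q : J => q.1) G) := by
    intro Q G
    have h1 : (aeval (fun q : J => (Ideal.Quotient.mk Q (X q.1) : MvPolynomial σ K ⧸ Q)) :
        MvPolynomial J K →ₐ[K] _) =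
        (Ideal.Quotient.mkₐ K Q).comp (rename (fun q : J => q.1)) := by
      refine MvPolynomial.algHom_ext fun q => ?_
      rw [aeval_X, AlgHom.comp_apply, rename_X]
      rfl
    rw [h1]
    rfl
  refine ⟨⟨⟨hPprime, hIP⟩, fun Q hQ hQP f hf => ?_⟩, ?_⟩
  · obtain ⟨hQprime, hIQ⟩ := hQ
    by_contra hfQ
    have hz : (Ideal.Quotient.mk Q f : MvPolynomial σ K ⧸ Q) ≠ 0 := fun h0 =>
      hfQ (Ideal.Quotient.eq_zero_iff_mem.1 h0)
    have hz2 : (Ideal.Quotient.mk Q f : MvPolynomial σ K ⧸ Q) ∈ P.map (Ideal.Quotient.mk Q) :=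
      Ideal.mem_map_of_mem _ hf
    have hne := Ideal.comap_ne_bot_of_algebraic_mem hz hz2
      (q2_algebraic a I J h Q hIQ hQP (Ideal.Quotient.mk Q f))
    apply hne
    rw [eq_bot_iff]
    rintro ⟨y, hy⟩ hyP
    rw [Ideal.mem_comap] at hyP
    have hyP' : y ∈ P.map (Ideal.Quotient.mk Q) := hyP
    rw [Algebra.adjoin_range_eq_range_aeval] at hy
    obtain ⟨G, rfl⟩ := hy
    obtain ⟨p, hp, hpG⟩ :=
      (Ideal.mem_map_iff_of_surjective _ Ideal.Quotient.mk_surjective).1 hyP'
    have h1 : rename (fun q : J => q.1) G ∈ P := by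
      have h2 : Ideal.Quotient.mk Q p = Ideal.Quotient.mk Q (rename (fun q : J => q.1) G) := by
        rw [hpG]
        exact hmk Q G
      have h3 := hQP (Ideal.Quotient.eq.1 h2)
      have h4 := P.sub_mem hp h3
      rwa [sub_sub_cancel] at h4
    have h5 : G = 0 := hind G h1
    rw [Submodule.mem_bot]
    apply Subtype.ext
    change (aeval (fun q : J => (Ideal.Quotient.mk Q (X q.1) : MvPolynomial σ K ⧸ Q))) G = 0
    rw [h5, map_zero]
  · have hai : AlgebraicIndependent K (fun q : J =>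
        (Ideal.Quotient.mk P (X q.1) : MvPolynomial σ K ⧸ P)) := by
      rw [algebraicIndependent_iff]
      intro G hG
      rw [hmk] at hG
      exact hind G (Ideal.Quotient.eq_zero_iff_mem.1 hG)
    exact hai.isTranscendenceBasis_iff_isAlgebraic.2
      ⟨fun z => q2_algebraic a I J h P hIP le_rfl z⟩

end Pool.Agent.Helper76.UF
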