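import Pool.Agent.Helper76.UF.Defs3

/-!
# Linear spaces in cubic hypersurfaces: the ideal of the Fano scheme
-/

namespace Pool.Agent.Helper76.UF

open MvPolynomial

theorem q5_row_map {m n : ℕ} {R S : Type*} [CommRing R] [CommRing S] (f : R →+* S)
    (a : Fin m × Fin n → R) (i : Fin m) (j : Ix m (Fin n)) :
    f (row a i j) = row (fun q => f (a q)) i j := by
  rcases j with j | j
  · simp only [row, Sum.elim_inl]
    split_ifs <;> simp
  · simp only [row, Sum.elim_inr]

theorem q5_aeval_cub {ι K R : Type*} [Fintype ι] [CommRing K] [CommRing R] [Algebra K R]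
    (D : Ten ι K) (f : ι → R) : aeval f (cub D) = tri (mapT (algebraMap K R) D) f f f := by
  simp only [cub, tri, mapT, map_sum, map_mul, aeval_X, algHom_C]

theorem q5_aeval_rows {m n : ℕ} {K A : Type*} [CommRing K] [CommRing A] [Algebra K A]
    (D : Ten (Ix m (Fin n)) K) (x : Fin m → Ix m (Fin n) → A) :
    (aeval (fun j : Fin m ⊕ Fin n => ∑ i : Fin m, C (x i j) * X i) (cub D) :
      MvPolynomial (Fin m) A) =
      ∑ i, ∑ j, ∑ k, C (tri (mapT (algebraMap K A) D) (x i) (x j) (x k)) * (X i * X j * X k) := by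
  rw [q5_aeval_cub]
  have h : (fun j : Fin m ⊕ Fin n => ∑ i : Fin m, C (x i j) * X i :
      Fin m ⊕ Fin n → MvPolynomial (Fin m) A) =
      ∑ i : Fin m, (X i : MvPolynomial (Fin m) A) • (fun j => C (x i j)) := by
    funext j
    rw [Finset.sum_apply]
    refine Finset.sum_congr rfl fun i _ => ?_
    rw [Pi.smul_apply, smul_eq_mul]
    ring
  have hC : ∀ x y z : Ix m (Fin n) → A,
      tri (mapT (algebraMap K (MvPolynomial (Fin m) A)) D)
        (fun l => (C (x l) : MvPolynomial (Fin m) A)) (fun l => C (y l)) (fun l => C (z l)) =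
      C (tri (mapT (algebraMap K A) D) x y z) := by
    intro x y z
    simp only [tri, mapT, map_sum, map_mul, MvPolynomial.algebraMap_apply]
  rw [h, tri_sum_left]
  refine Finset.sum_congr rfl fun i _ => ?_
  rw [tri_sum_mid]
  refine Finset.sum_congr rfl fun j _ => ?_
  rw [tri_sum_right]
  refine Finset.sum_congr rfl fun k _ => ?_
  rw [tri_smul_left, tri_smul_mid, tri_smul_right, hC]
  ring

/-- Compare `Pool/Agent/Helper76/CY/Fano.lean`, the case `m = 3`, `n = 7` (other definitions). The
polynomial `aeval (fun j => ∑ i, C (row X i j) * X i) (cub D)` is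
`∑ i, ∑ j, ∑ k, C (D(row X i, row X j, row X k)) * (X i * X j * X k)`. -/
theorem aeval_fanoIdeal {m n : ℕ} {K R : Type*} [Field K] [CommRing R] [Algebra K R]
    (D : Ten (Ix m (Fin n)) K) (a : Fin m × Fin n → R)
    (h : VanOn (mapT (algebraMap K R) D) (row a)) (g : MvPolynomial (Fin m × Fin n) K)
    (hg : g ∈ fanoIdeal (cub D)) : aeval a g = 0 := by
  have h1 : fanoIdeal (cub D) ≤
      RingHom.ker (aeval a : MvPolynomial (Fin m × Fin n) K →ₐ[K] R) := by
    rw [fanoIdeal, Ideal.span_le]
    rintro _ ⟨e, rfl⟩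
    simp only [SetLike.mem_coe, RingHom.mem_ker]
    rw [q5_aeval_rows]
    simp only [coeff_sum, map_sum, coeff_C_mul, map_mul]
    refine Finset.sum_eq_zero fun i _ => Finset.sum_eq_zero fun j _ =>
      Finset.sum_eq_zero fun k _ => ?_
    have h2 : aeval a (tri (mapT (algebraMap K (MvPolynomial (Fin m × Fin n) K)) D)
        (row X i) (row X j) (row X k) : MvPolynomial (Fin m × Fin n) K) = 0 := by
      have h3 : ∀ i, (fun l => (aeval a : MvPolynomial (Fin m × Fin n) K →ₐ[K] R)
          (row (X : Fin m × Fin n → MvPolynomial (Fin m × Fin n) K) i l)) = row a i := by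
        intro i
        funext l
        have := q5_row_map ((aeval a : MvPolynomial (Fin m × Fin n) K →ₐ[K] R) :
          MvPolynomial (Fin m × Fin n) K →+* R) X i l
        simp only [RingHom.coe_coe, aeval_X] at this
        exact this
      have h4 := h i j k
      rw [← h3 i, ← h3 j, ← h3 k] at h4
      rw [← h4]
      simp only [tri, mapT, map_sum, map_mul, AlgHom.commutes]
    rw [h2, zero_mul]
  exact h1 hg

theorem q5_perm1 {α : Type*} [DecidableEq α] {a b : α}
    (h : ∀ l, (if a = l then 1 else 0 : ℕ) = if b = l then 1 else 0) : a = b := by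
  have h1 := h a
  rw [if_pos rfl] at h1
  by_contra hne
  rw [if_neg (Ne.symm hne)] at h1
  omega

theorem q5_perm2 {α : Type*} [DecidableEq α] {a b c d : α}
    (h : ∀ l, (if a = l then 1 else 0 : ℕ) + (if b = l then 1 else 0) =
      (if c = l then 1 else 0) + (if d = l then 1 else 0)) :
    (a = c ∧ b = d) ∨ (a = d ∧ b = c) := by
  by_cases h1 : a = c
  · left
    refine ⟨h1, q5_perm1 fun l => ?_⟩
    have h2 := h l
    rw [h1] at h2
    omega
  · by_cases h3 : a = d
    · right
      refine ⟨h3, q5_perm1 fun l => ?_⟩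
      have h2 := h l
      rw [h3] at h2
      omega
    · have h2 := h a
      rw [if_pos rfl, if_neg (Ne.symm h1), if_neg (Ne.symm h3)] at h2
      omega

theorem q5_perm3 {α : Type*} [DecidableEq α] {i' j' k' i j k : α}
    (h : ∀ l, (if i' = l then 1 else 0 : ℕ) + (if j' = l then 1 else 0) +
      (if k' = l then 1 else 0) = (if i = l then 1 else 0) + (if j = l then 1 else 0) +
      (if k = l then 1 else 0)) :
    (i' = i ∧ j' = j ∧ k' = k) ∨ (i' = i ∧ j' = k ∧ k' = j) ∨ (i' = j ∧ j' = i ∧ k' = k) ∨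
      (i' = j ∧ j' = k ∧ k' = i) ∨ (i' = k ∧ j' = i ∧ k' = j) ∨ (i' = k ∧ j' = j ∧ k' = i) := by
  by_cases h1 : i' = i
  · have h2 : (j' = j ∧ k' = k) ∨ (j' = k ∧ k' = j) := q5_perm2 fun l => by
      have h3 := h l
      rw [h1] at h3
      omega
    rcases h2 with h2 | h2
    · exact Or.inl ⟨h1, h2⟩
    · exact Or.inr (Or.inl ⟨h1, h2⟩)
  · by_cases h4 : i' = j
    · have h2 : (j' = i ∧ k' = k) ∨ (j' = k ∧ k' = i) := q5_perm2 fun l => by
        have h3 := h l
        rw [h4] at h3
        omega
      rcases h2 with h2 | h2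
      · exact Or.inr (Or.inr (Or.inl ⟨h4, h2⟩))
      · exact Or.inr (Or.inr (Or.inr (Or.inl ⟨h4, h2⟩)))
    · by_cases h5 : i' = k
      · have h2 : (j' = i ∧ k' = j) ∨ (j' = j ∧ k' = i) := q5_perm2 fun l => by
          have h3 := h l
          rw [h5] at h3
          omega
        rcases h2 with h2 | h2
        · exact Or.inr (Or.inr (Or.inr (Or.inr (Or.inl ⟨h5, h2⟩))))
        · exact Or.inr (Or.inr (Or.inr (Or.inr (Or.inr ⟨h5, h2⟩))))
      · have h2 := h i'
        rw [if_pos rfl, if_neg (Ne.symm h1), if_neg (Ne.symm h4), if_neg (Ne.symm h5)] at h2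
        omega

/-- Compare `Pool/Agent/Helper76/CY/Fano.lean`, the case `m = 3`, `n = 7`. The coefficient of
`X i * X j * X k` is a positive integer times `D(row X i, row X j, row X k)`, by the symmetry. -/
theorem tri_mem_fanoIdeal {m n : ℕ} {K : Type*} [Field K] [CharZero K]
    (D : Ten (Ix m (Fin n)) K) (hD : IsSym D) (i j k : Fin m) :
    tri (mapT (C : K →+* MvPolynomial (Fin m × Fin n) K) D) (row X i) (row X j) (row X k) ∈
      fanoIdeal (cub D) := by
  classical
  have hS : IsSym (mapT (C : K →+* MvPolynomial (Fin m × Fin n) K) D) := hD.map _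
  set T : Fin m → Fin m → Fin m → MvPolynomial (Fin m × Fin n) K := fun i j k =>
    tri (mapT (C : K →+* MvPolynomial (Fin m × Fin n) K) D) (row X i) (row X j) (row X k) with hT
  have hT12 : ∀ i j k, T i j k = T j i k := fun i j k => hS.tri12 _ _ _
  have hT23 : ∀ i j k, T i j k = T i k j := fun i j k => hS.tri23 _ _ _
  set e : Fin m →₀ ℕ := Finsupp.single i 1 + Finsupp.single j 1 + Finsupp.single k 1 with he
  have h1 : coeff e (aeval (fun j : Fin m ⊕ Fin n => ∑ i : Fin m, C (row X i j) * X i) (cub D) :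
      MvPolynomial (Fin m) (MvPolynomial (Fin m × Fin n) K)) ∈ fanoIdeal (cub D) :=
    Ideal.subset_span ⟨e, rfl⟩
  rw [q5_aeval_rows] at h1
  simp only [coeff_sum, coeff_C_mul] at h1
  rw [MvPolynomial.algebraMap_eq] at h1
  have hX : ∀ i' j' k' : Fin m,
      (X i' * X j' * X k' : MvPolynomial (Fin m) (MvPolynomial (Fin m × Fin n) K)) =
      monomial (Finsupp.single i' 1 + Finsupp.single j' 1 + Finsupp.single k' 1) 1 := by
    intro i' j' k'
    rw [X, X, X, monomial_mul, monomial_mul, one_mul, one_mul]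
  have h2 : ∀ i' j' k' : Fin m, T i' j' k' * coeff e (X i' * X j' * X k') =
      (if Finsupp.single i' 1 + Finsupp.single j' 1 + Finsupp.single k' 1 = e then 1 else 0) *
        T i j k := by
    intro i' j' k'
    rw [hX, coeff_monomial]
    by_cases h : Finsupp.single i' 1 + Finsupp.single j' 1 + Finsupp.single k' 1 = e
    · rw [if_pos h, mul_one, one_mul]
      rcases q5_perm3 (i' := i') (j' := j') (k' := k') (i := i) (j := j) (k := k) (fun l => by
        have h3 := DFunLike.congr_fun h l
        simpa [he, Finsupp.single_apply] using h3) with h | h | h | h | h | h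
      · rw [h.1, h.2.1, h.2.2]
      · rw [h.1, h.2.1, h.2.2, hT23]
      · rw [h.1, h.2.1, h.2.2, hT12]
      · rw [h.1, h.2.1, h.2.2, hT23, hT12]
      · rw [h.1, h.2.1, h.2.2, hT12, hT23]
      · rw [h.1, h.2.1, h.2.2, hT12, hT23, hT12]
    · rw [if_neg h, mul_zero, zero_mul]
  have h3 : (∑ i', ∑ j', ∑ k' : Fin m, T i' j' k' * coeff e (X i' * X j' * X k')) =
      ((∑ i', ∑ j', ∑ k' : Fin m, if Finsupp.single i' 1 + Finsupp.single j' 1 +
        Finsupp.single k' 1 = e then 1 else 0 : ℕ) : MvPolynomial (Fin m × Fin n) K) *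
          T i j k := by
    push_cast
    simp only [h2, Finset.sum_mul]
  have h4 : 0 < (∑ i', ∑ j', ∑ k' : Fin m, if Finsupp.single i' 1 + Finsupp.single j' 1 +
        Finsupp.single k' 1 = e then 1 else 0 : ℕ) := by
    refine Finset.sum_pos' (fun _ _ => Nat.zero_le _) ⟨i, Finset.mem_univ _, ?_⟩
    refine Finset.sum_pos' (fun _ _ => Nat.zero_le _) ⟨j, Finset.mem_univ _, ?_⟩
    refine Finset.sum_pos' (fun _ _ => Nat.zero_le _) ⟨k, Finset.mem_univ _, ?_⟩
    rw [if_pos he.symm]
    exact Nat.one_pos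
  set N : ℕ := ∑ i', ∑ j', ∑ k' : Fin m, if Finsupp.single i' 1 + Finsupp.single j' 1 +
        Finsupp.single k' 1 = e then 1 else 0 with hN
  have h5 := (fanoIdeal (cub D)).mul_mem_left (C ((N : K)⁻¹)) h1
  have h6 : C ((N : K)⁻¹) * ((N : MvPolynomial (Fin m × Fin n) K) * T i j k) = T i j k := by
    rw [← mul_assoc, ← map_natCast (C : K →+* MvPolynomial (Fin m × Fin n) K), ← map_mul,
      inv_mul_cancel₀ (Nat.cast_ne_zero.mpr h4.ne'), map_one, one_mul]
  rw [← h3] at h6
  have h7 : T i j k ∈ fanoIdeal (cub D) := by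
    rw [← h6]
    exact h5
  exact h7

/-- Proof. Apply the hypothesis to the elements of `tri_mem_fanoIdeal`: the derivation
`f ↦ ∑ q, aeval a (pderiv q f) * τ q` (over `aeval a`) maps the coordinates of `row X i` to those of
`low τ i` and kills the constants. -/
theorem tangent_fano {m n : ℕ} {K M : Type*} [Field K] [CharZero K] [Field M] [Algebra K M]
    (D : Ten (Ix m (Fin n)) K) (hD : IsSym D) (a τ : Fin m × Fin n → M)
    (h : ∀ f ∈ fanoIdeal (cub D), ∑ q, aeval a (pderiv q f) * τ q = 0) :
    τ ∈ Ta (mapT (algebraMap K M) D) a := by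
  classical
  set L : MvPolynomial (Fin m × Fin n) K → M := fun f => ∑ q, aeval a (pderiv q f) * τ q with hL
  have hsum : ∀ {κ : Type} (s : Finset κ) (f : κ → MvPolynomial (Fin m × Fin n) K),
      L (∑ i ∈ s, f i) = ∑ i ∈ s, L (f i) := by
    intro κ s f
    simp only [hL, map_sum, Finset.sum_mul]
    exact Finset.sum_comm
  have hmul : ∀ f g, L (f * g) = L f * aeval a g + aeval a f * L g := by
    intro f g
    simp only [hL, Finset.sum_mul, Finset.mul_sum, ← Finset.sum_add_distrib]
    refine Finset.sum_congr rfl fun q _ => ?_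
    rw [pderiv_mul, map_add, map_mul, map_mul]
    ring
  have hC : ∀ c : K, L (C c) = 0 := by
    intro c
    simp only [hL, pderiv_C, map_zero, zero_mul, Finset.sum_const_zero]
  have hX : ∀ q, L (X q) = τ q := by
    intro q
    simp only [hL, pderiv_X]
    rw [Finset.sum_eq_single q]
    · simp
    · intro p _ hp
      simp [Ne.symm hp]
    · intro hq
      exact absurd (Finset.mem_univ _) hq
  have hrow : ∀ (i : Fin m) (l : Ix m (Fin n)), L (row X i l) = low τ i l := by
    intro i l
    rcases l with l | l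
    · simp only [row, Sum.elim_inl, low, LinearMap.coe_mk, AddHom.coe_mk]
      split_ifs
      · rw [← map_one (C : K →+* MvPolynomial (Fin m × Fin n) K), hC]
      · rw [← map_zero (C : K →+* MvPolynomial (Fin m × Fin n) K), hC]
    · simp only [row, Sum.elim_inr, low, LinearMap.coe_mk, AddHom.coe_mk, hX]
  have hrow' : ∀ (i : Fin m) (l : Ix m (Fin n)),
      aeval a (row (X : Fin m × Fin n → MvPolynomial (Fin m × Fin n) K) i l) = row a i l := by
    intro i l
    have := q5_row_map ((aeval a : MvPolynomial (Fin m × Fin n) K →ₐ[K] M) :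
      MvPolynomial (Fin m × Fin n) K →+* M) X i l
    simp only [RingHom.coe_coe, aeval_X] at this
    exact this
  intro i j k
  have h1 := h _ (tri_mem_fanoIdeal D hD i j k)
  change L _ = 0 at h1
  rw [← h1]
  simp only [tri, mapT, hsum, ← Finset.sum_add_distrib]
  refine Finset.sum_congr rfl fun p _ => Finset.sum_congr rfl fun q _ =>
    Finset.sum_congr rfl fun r _ => ?_
  simp only [hmul, hC, hrow, hrow', map_mul, algHom_C]
  ring

end Pool.Agent.Helper76.UF
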