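import Pool.Agent.Helper76.UF.Defs3
import Pool.Agent.Helper76.UF.St.P4

/-!
# Linear spaces in cubic hypersurfaces: the tangent space in the chart
-/

namespace Pool.Agent.Helper76.UF

section q6

variable {m : ℕ} {ω : Type*} [Fintype ω] {A : Type*} [CommRing A]

theorem q6_tri (D : Ten (Ix m ω) A) (c : Matrix (Fin m) (Fin m) A)
    (x y z : Fin m → Ix m ω → A) (i j k : Fin m) :
    tri D (∑ i', c i i' • x i') (∑ j', c j j' • y j') (∑ k', c k k' • z k') =
      ∑ i', ∑ j', ∑ k', c i i' * c j j' * c k k' * tri D (x i') (y j') (z k') := by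
  rw [tri_sum_left]
  refine Finset.sum_congr rfl fun i' _ => ?_
  rw [tri_sum_mid]
  refine Finset.sum_congr rfl fun j' _ => ?_
  rw [tri_sum_right]
  refine Finset.sum_congr rfl fun k' _ => ?_
  rw [tri_smul_left, tri_smul_mid, tri_smul_right]
  ring

theorem q6_bil (D : Ten (Ix m ω) A) (c : Matrix (Fin m) (Fin m) A)
    (x : Fin m → Ix m ω → A) (y : Ix m ω → A) :
    (Matrix.of fun i j => tri D (∑ i', c i i' • x i') (∑ j', c j j' • x j') y) =
      c * (Matrix.of fun i j => tri D (x i) (x j) y) * c.transpose := by
  ext i j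
  rw [Matrix.mul_apply, Matrix.of_apply, tri_sum_mid]
  refine Finset.sum_congr rfl fun j' _ => ?_
  rw [Matrix.mul_apply, tri_sum_left, Finset.sum_mul]
  refine Finset.sum_congr rfl fun i' _ => ?_
  rw [tri_smul_left, tri_smul_mid, Matrix.of_apply, Matrix.transpose_apply]
  ring

theorem q6_van (D : Ten (Ix m ω) A) (c : Matrix (Fin m) (Fin m) A)
    (V : Fin m → Ix m ω → A) (hV : VanOn D V) : VanOn D (fun i => ∑ j, c i j • V j) := by
  intro i j k
  rw [q6_tri]
  refine Finset.sum_eq_zero fun i' _ => Finset.sum_eq_zero fun j' _ =>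
    Finset.sum_eq_zero fun k' _ => ?_
  rw [hV, mul_zero]

theorem q6_TS (D : Ten (Ix m ω) A) (c : Matrix (Fin m) (Fin m) A)
    (V : Fin m → Ix m ω → A) (b : Fin m → Ix m ω → A) (hb : b ∈ TS D V) :
    (fun i => ∑ j, c i j • b j) ∈ TS D (fun i => ∑ j, c i j • V j) := by
  intro i j k
  simp only [q6_tri]
  rw [← Finset.sum_add_distrib, ← Finset.sum_add_distrib]
  refine Finset.sum_eq_zero fun i' _ => ?_
  rw [← Finset.sum_add_distrib, ← Finset.sum_add_distrib]
  refine Finset.sum_eq_zero fun j' _ => ?_
  rw [← Finset.sum_add_distrib, ← Finset.sum_add_distrib]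
  refine Finset.sum_eq_zero fun k' _ => ?_
  have := hb i' j' k'
  linear_combination (c i i' * c j j' * c k k') * this

end q6

theorem q6_row_inl {m n : ℕ} {R : Type*} [CommRing R] (a : Fin m × Fin n → R) (i j : Fin m) :
    row a i (.inl j) = if j = i then 1 else 0 := rfl

theorem q6_row_inr {m n : ℕ} {R : Type*} [CommRing R] (a : Fin m × Fin n → R) (i : Fin m)
    (b : Fin n) : row a i (.inr b) = a (i, b) := rfl

theorem q6_low_inl {m n : ℕ} {R : Type*} [CommRing R] (a : Fin m × Fin n → R) (i j : Fin m) :
    low a i (.inl j) = 0 := rfl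

theorem q6_low_inr {m n : ℕ} {R : Type*} [CommRing R] (a : Fin m × Fin n → R) (i : Fin m)
    (b : Fin n) : low a i (.inr b) = a (i, b) := rfl

theorem q6_low_inj {m n : ℕ} {R : Type*} [CommRing R] :
    Function.Injective (low : (Fin m × Fin n → R) →ₗ[R] (Fin m → Ix m (Fin n) → R)) := by
  intro a b h
  funext q
  have := congrFun (congrFun h q.1) (.inr q.2)
  rwa [q6_low_inr, q6_low_inr] at this

/-- Proof. By `finrank_TS`, `finrank (TS D (row a)) + (m + 2).choose 3 = m * (m + n)`. The linear map
`TS D (row a) → (Fin m → Fin m → M)`, `b ↦ (b i (inl j))`, is surjective because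
`frm (row a) h ∈ TS D (row a)` for all `h` (`hV`) is mapped to `h`, and its kernel is the image of
`Ta D a` under the injective map `low`. -/
theorem finrank_Ta {m n : ℕ} {M : Type*} [Field M] [CharZero M] (D : Ten (Ix m (Fin n)) M)
    (hD : IsSym D) (a : Fin m × Fin n → M) (hV : VanOn D (row a)) (g : Pr m → Ix m (Fin n) → M)
    (hdet : (QM D (row a) g).det ≠ 0) :
    Module.finrank M (Ta D a) + (m + 2).choose 3 = m * n := by
  have h1 := finrank_TS D hD (row a) g hdet
  rw [Fintype.card_fin] at h1
  let ρ : TS D (row a) →ₗ[M] (Fin m → Fin m → M) :=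
    { toFun := fun b i j => b.1 i (.inl j)
      map_add' := fun b c => rfl
      map_smul' := fun c b => rfl }
  have hρ : ∀ (b : TS D (row a)) (i j : Fin m), ρ b i j = b.1 i (.inl j) := fun _ _ _ => rfl
  have hsurj : LinearMap.range ρ = ⊤ := by
    rw [LinearMap.range_eq_top]
    intro h
    have hmem : frm (row a) h ∈ TS D (row a) := by
      intro i j k
      simp only [frm, tri_sum_left, tri_sum_mid, tri_sum_right, tri_smul_left, tri_smul_mid,
        tri_smul_right]
      have z : ∀ i j k, tri D (row a i) (row a j) (row a k) = 0 := hV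
      simp only [z, mul_zero, Finset.sum_const_zero, add_zero]
    refine ⟨⟨frm (row a) h, hmem⟩, ?_⟩
    funext i j
    rw [hρ]
    change (∑ k, h i k • row a k) (.inl j) = h i j
    rw [Finset.sum_apply]
    simp only [Pi.smul_apply, smul_eq_mul, q6_row_inl]
    simp
  let Θ : Ta D a →ₗ[M] TS D (row a) :=
    { toFun := fun τ => ⟨low τ.1, τ.2⟩
      map_add' := fun b c => by
        ext1
        exact map_add low b.1 c.1
      map_smul' := fun c b => by
        ext1
        exact map_smul low c b.1 }
  have hΘ : Function.Injective Θ := by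
    intro x y h
    have h2 : low x.1 = low y.1 := congrArg Subtype.val h
    exact Subtype.ext (q6_low_inj h2)
  have hker : LinearMap.range Θ = LinearMap.ker ρ := by
    apply le_antisymm
    · rintro _ ⟨τ, rfl⟩
      rw [LinearMap.mem_ker]
      funext i j
      rfl
    · intro b hb
      rw [LinearMap.mem_ker] at hb
      have h3 : low (fun q => b.1 q.1 (.inr q.2)) = b.1 := by
        funext i l
        rcases l with l | l
        · have := congrFun (congrFun hb i) l
          rw [hρ] at this
          rw [q6_low_inl, this]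
          rfl
        · rfl
      refine ⟨⟨fun q => b.1 q.1 (.inr q.2), ?_⟩, ?_⟩
      · change low (fun q => b.1 q.1 (.inr q.2)) ∈ TS D (row a)
        rw [h3]
        exact b.2
      · exact Subtype.ext h3
  have h4 := LinearMap.finrank_range_add_finrank_ker ρ
  rw [hsurj, finrank_top, ← hker, LinearMap.finrank_range_of_inj hΘ] at h4
  have h5 : Module.finrank M (Fin m → Fin m → M) = m * m := by
    rw [Module.finrank_pi_fintype]
    simp
  rw [h5] at h4
  have h6 : m * (m + n) = m * m + m * n := by ring
  omega

/-- Proof. The matrix `B i j = V i (inl j)` is invertible; let `row a i = ∑ j, B⁻¹ i j • V j`,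
that is `a (i, b) = ∑ j, B⁻¹ i j * V j (inr b)`. Then `VanOn` holds for `row a` by trilinearity, and
`QM _ (row a) g'` is invertible for some `g'`, since `qf _ V` is surjective, and so is `qf _ (row a)`
(if `qf _ V y` is the quadratic form `Q(∑ i, (x B⁻¹) i ..)`; or: the matrix of the action of `B⁻¹` on
the quadratic forms is invertible). For a derivation `δ` of `M` over `K`, acting coordinatewise,
`low (δ a) i = ∑ j, B⁻¹ i j • δ (V j) - ∑ j, (h_δ) i j • row a j` for some matrix `h_δ`: apply `δ` to
`V i = ∑ j, B i j • row a j` to get `δ (V i) = ∑ j, δ (B i j) • row a j + ∑ j, B i j • low (δ a) j`.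
Let `τ ∈ Ta`. Then `b i = ∑ j, B i j • low τ j` is in `TS _ V` (trilinearity), so
`b = ∑ s, c s • δ_s (V)` for some derivations `δ_s`, and
`∑ j, B i j • (low τ j - ∑ s, c s • low (δ_s a) j) = ∑ j, (∑ s, c s * δ_s (B i j)) • row a j`. The
coordinates `inl` of the left side vanish, so the coefficients on the right vanish and, since `B` is
invertible, `low τ = ∑ s, c s • low (δ_s a)`. -/
theorem chart_of_chain {m n : ℕ} {K M : Type*} [Field K] [CharZero K] [Field M] [Algebra K M]
    (D : Ten (Ix m (Fin n)) K) (hD : IsSym D) (V : Fin m → Ix m (Fin n) → M)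
    (hV : VanOn (mapT (algebraMap K M) D) V) (g : Pr m → Ix m (Fin n) → M)
    (hdet : (QM (mapT (algebraMap K M) D) V g).det ≠ 0)
    (hB : (Matrix.of fun i j => V i (.inl j)).det ≠ 0)
    (hspan : ∀ b ∈ TS (mapT (algebraMap K M) D) V, b ∈ Submodule.span M
      {c : Fin m → Ix m (Fin n) → M | ∃ δ : Derivation K M M, c = fun i l => δ (V i l)}) :
    ∃ a : Fin m × Fin n → M, VanOn (mapT (algebraMap K M) D) (row a) ∧
      (∃ g' : Pr m → Ix m (Fin n) → M, (QM (mapT (algebraMap K M) D) (row a) g').det ≠ 0) ∧
      ∀ τ ∈ Ta (mapT (algebraMap K M) D) a, τ ∈ Submodule.span M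
        {t : Fin m × Fin n → M | ∃ δ : Derivation K M M, t = fun q => δ (a q)} := by
  set D' := mapT (algebraMap K M) D with hD'
  have hs : IsSym D' := hD.map _
  set B : Matrix (Fin m) (Fin m) M := Matrix.of fun i j => V i (.inl j) with hBdef
  have hu : IsUnit B.det := isUnit_iff_ne_zero.2 hB
  set W : Matrix (Fin m) (Fin n) M := Matrix.of fun i b => V i (.inr b) with hW
  set P : Matrix (Fin m) (Fin n) M := B⁻¹ * W with hP
  have hBP : B * P = W := by
    rw [hP, Matrix.mul_nonsing_inv_cancel_left _ _ hu]
  set a : Fin m × Fin n → M := fun q => P q.1 q.2 with ha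
  have hrow : row a = fun i => ∑ j, B⁻¹ i j • V j := by
    funext i l
    rw [Finset.sum_apply]
    rcases l with l | l
    · have h1 : (B⁻¹ * B) i l = (1 : Matrix (Fin m) (Fin m) M) i l := by
        rw [Matrix.nonsing_inv_mul _ hu]
      rw [Matrix.mul_apply, Matrix.one_apply] at h1
      rw [q6_row_inl]
      simp only [Pi.smul_apply, smul_eq_mul]
      rw [show (∑ x, B⁻¹ i x * V x (Sum.inl l)) = ∑ x, B⁻¹ i x * B x l from rfl, h1]
      simp only [eq_comm]
    · rw [q6_row_inr, ha]
      simp only [Pi.smul_apply, smul_eq_mul]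
      rw [hP, Matrix.mul_apply]
      rfl
  have hVrow : V = fun i => ∑ j, B i j • row a j := by
    funext i l
    rw [Finset.sum_apply]
    simp only [Pi.smul_apply, smul_eq_mul]
    rcases l with l | l
    · simp only [q6_row_inl]
      simp [hBdef]
    · simp only [q6_row_inr]
      have h1 : (B * P) i l = W i l := by rw [hBP]
      rw [Matrix.mul_apply] at h1
      rw [ha]
      exact h1.symm
  refine ⟨a, ?_, ?_, ?_⟩
  · rw [hrow]
    exact q6_van _ _ _ hV
  · have hunit : IsUnit (QM D' V g) := by
      rw [Matrix.isUnit_iff_isUnit_det]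
      exact isUnit_iff_ne_zero.2 hdet
    have hsur : ∀ N : Matrix (Fin m) (Fin m) M, N.transpose = N →
        ∃ y : Ix m (Fin n) → M, (Matrix.of fun i j => tri D' (V i) (V j) y) = N := by
      intro N hN
      obtain ⟨c, hc⟩ := (Matrix.mulVec_surjective_iff_isUnit.2 hunit)
        (fun e : Pr m => N e.1.1 e.1.2)
      have hq : qf D' V (∑ e, c e • g e) = fun e : Pr m => N e.1.1 e.1.2 := by
        rw [qf_sum, ← hc]
        funext e
        rw [Finset.sum_apply, Matrix.mulVec, dotProduct]
        refine Finset.sum_congr rfl fun f _ => ?_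
        rw [qf_smul, Pi.smul_apply, smul_eq_mul, mul_comm]
        rfl
      refine ⟨∑ e, c e • g e, ?_⟩
      ext i j
      rw [Matrix.of_apply]
      rcases le_total i j with h | h
      · exact congrFun hq ⟨(i, j), h⟩
      · rw [hs.tri12]
        have h2 := congrFun hq ⟨(j, i), h⟩
        have h3 : N j i = N i j := by
          have := congrFun (congrFun hN i) j
          rwa [Matrix.transpose_apply] at this
        rw [← h3]
        exact h2
    have hsur2 : ∀ S : Matrix (Fin m) (Fin m) M, S.transpose = S →
        ∃ y : Ix m (Fin n) → M, (Matrix.of fun i j => tri D' (row a i) (row a j) y) = S := by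
      intro S hS
      obtain ⟨y, hy⟩ := hsur (B * S * B.transpose) (by
        rw [Matrix.transpose_mul, Matrix.transpose_mul, Matrix.transpose_transpose, hS,
          Matrix.mul_assoc])
      refine ⟨y, ?_⟩
      have h1 := q6_bil D' B⁻¹ V y
      rw [hy] at h1
      rw [hrow, h1, Matrix.mul_assoc B, Matrix.nonsing_inv_mul_cancel_left _ _ hu,
        Matrix.mul_assoc, ← Matrix.transpose_mul, Matrix.nonsing_inv_mul _ hu,
        Matrix.transpose_one, Matrix.mul_one]
    choose Y hY using hsur2
    have hsymc : ∀ c : Pr m, (Matrix.of fun i j : Fin m =>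
        if ({i, j} : Multiset (Fin m)) = {c.1.1, c.1.2} then (1 : M) else 0).transpose =
        Matrix.of fun i j : Fin m =>
        if ({i, j} : Multiset (Fin m)) = {c.1.1, c.1.2} then (1 : M) else 0 := by
      intro c
      ext i j
      rw [Matrix.transpose_apply, Matrix.of_apply, Matrix.of_apply, Multiset.pair_comm]
    refine ⟨fun c => Y _ (hsymc c), ?_⟩
    have hone : QM D' (row a) (fun c => Y _ (hsymc c)) = 1 := by
      ext e c
      have h1 := congrFun (congrFun (hY _ (hsymc c)) e.1.1) e.1.2
      rw [Matrix.of_apply, Matrix.of_apply] at h1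
      change tri D' (row a e.1.1) (row a e.1.2) (Y _ (hsymc c)) = _
      rw [h1, Matrix.one_apply]
      by_cases hec : e = c
      · subst hec
        simp
      · rw [if_neg hec, if_neg]
        intro h2
        apply hec
        rcases p4_pair h2 with ⟨h3, h4⟩ | ⟨h3, h4⟩
        · exact Subtype.ext (Prod.ext h3 h4)
        · have e1 := e.2
          have e2 := c.2
          rw [h3, h4] at e1
          have h5 : c.1.1 = c.1.2 := le_antisymm e2 e1
          exact Subtype.ext (Prod.ext (by rw [h3, h5]) (by rw [h4, h5]))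
    rw [hone, Matrix.det_one]
    exact one_ne_zero
  · intro τ hτ
    let L : (Fin m → Ix m (Fin n) → M) →ₗ[M] (Fin m × Fin n → M) :=
      { toFun := fun c q => (B⁻¹ * (Matrix.of fun (j : Fin m) (b : Fin n) => c j (.inr b)) -
          B⁻¹ * (Matrix.of fun (j : Fin m) (k : Fin m) => c j (.inl k)) * P) q.1 q.2
        map_add' := by
          intro c c'
          funext q
          have e1 : (Matrix.of fun (j : Fin m) (b : Fin n) => (c + c') j (.inr b)) =
              (Matrix.of fun (j : Fin m) (b : Fin n) => c j (.inr b)) +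
              (Matrix.of fun (j : Fin m) (b : Fin n) => c' j (.inr b)) := rfl
          have e2 : (Matrix.of fun (j : Fin m) (b : Fin m) => (c + c') j (.inl b)) =
              (Matrix.of fun (j : Fin m) (b : Fin m) => c j (.inl b)) +
              (Matrix.of fun (j : Fin m) (b : Fin m) => c' j (.inl b)) := rfl
          rw [e1, e2, Matrix.mul_add, Matrix.mul_add, Matrix.add_mul]
          simp only [Matrix.sub_apply, Matrix.add_apply, Pi.add_apply]
          ring
        map_smul' := by
          intro r c
          funext q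
          have e1 : (Matrix.of fun (j : Fin m) (b : Fin n) => (r • c) j (.inr b)) =
              r • (Matrix.of fun (j : Fin m) (b : Fin n) => c j (.inr b)) := rfl
          have e2 : (Matrix.of fun (j : Fin m) (b : Fin m) => (r • c) j (.inl b)) =
              r • (Matrix.of fun (j : Fin m) (b : Fin m) => c j (.inl b)) := rfl
          rw [e1, e2, Matrix.mul_smul, Matrix.mul_smul, Matrix.smul_mul]
          simp only [Matrix.sub_apply, Matrix.smul_apply, Pi.smul_apply, RingHom.id_apply,
            smul_eq_mul]
          ring }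
    have hL : ∀ c q, L c q = (B⁻¹ * (Matrix.of fun (j : Fin m) (b : Fin n) => c j (.inr b)) -
          B⁻¹ * (Matrix.of fun (j : Fin m) (k : Fin m) => c j (.inl k)) * P) q.1 q.2 :=
      fun _ _ => rfl
    have hLδ : ∀ δ : Derivation K M M, L (fun i l => δ (V i l)) = fun q => δ (a q) := by
      intro δ
      funext q
      rw [hL]
      have e1 : (Matrix.of fun (j : Fin m) (b : Fin n) => δ (V j (.inr b))) =
          (Matrix.of fun (j : Fin m) (k : Fin m) => δ (V j (.inl k))) * P +
          B * (Matrix.of fun (j : Fin m) (b : Fin n) => δ (P j b)) := by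
        ext j b
        have h1 : V j (.inr b) = ∑ k, B j k * P k b := by
          have h2 : (B * P) j b = W j b := by rw [hBP]
          rw [Matrix.mul_apply] at h2
          exact h2.symm
        rw [Matrix.of_apply, h1, map_sum, Matrix.add_apply, Matrix.mul_apply, Matrix.mul_apply,
          ← Finset.sum_add_distrib]
        refine Finset.sum_congr rfl fun k _ => ?_
        rw [Derivation.leibniz, smul_eq_mul, smul_eq_mul, Matrix.of_apply, Matrix.of_apply]
        change B j k * δ (P k b) + P k b * δ (V j (.inl k)) = _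
        ring
      rw [e1, Matrix.mul_add, Matrix.nonsing_inv_mul_cancel_left _ _ hu, Matrix.mul_assoc,
        add_sub_cancel_left]
      rfl
    have hb : (fun i => ∑ j, B i j • low τ j) ∈ TS D' V := by
      have h1 := q6_TS D' B (row a) (low τ) hτ
      rw [← hVrow] at h1
      exact h1
    have hLb : L (fun i => ∑ j, B i j • low τ j) = τ := by
      funext q
      rw [hL]
      have e1 : (Matrix.of fun (j : Fin m) (b : Fin n) =>
          (∑ k, B j k • low τ k) (.inr b)) = B * (Matrix.of fun (j : Fin m) (b : Fin n) =>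
            τ (j, b)) := by
        ext j b
        rw [Matrix.of_apply, Finset.sum_apply, Matrix.mul_apply]
        rfl
      have e2 : (Matrix.of fun (j : Fin m) (k : Fin m) =>
          (∑ k, B j k • low τ k) (.inl k)) = 0 := by
        ext j b
        rw [Matrix.of_apply, Finset.sum_apply]
        simp only [Pi.smul_apply, q6_low_inl, smul_zero, Finset.sum_const_zero]
        rfl
      rw [e1, e2, Matrix.mul_zero, Matrix.zero_mul, sub_zero,
        Matrix.nonsing_inv_mul_cancel_left _ _ hu]
      rfl
    have h2 := hspan _ hb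
    have h3 : L (fun i => ∑ j, B i j • low τ j) ∈ (Submodule.span M
      {c : Fin m → Ix m (Fin n) → M | ∃ δ : Derivation K M M, c = fun i l => δ (V i l)}).map L :=
      Submodule.mem_map_of_mem h2
    rw [hLb, Submodule.map_span] at h3
    refine Submodule.span_mono ?_ h3
    rintro _ ⟨c, ⟨δ, rfl⟩, rfl⟩
    exact ⟨δ, hLδ δ⟩

end Pool.Agent.Helper76.UF
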