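import Pool.Agent.Helper76.UF.Sq.Q8a
import Pool.Agent.Helper76.UF.St.P4

/-!
# Linear spaces in cubic hypersurfaces: the generic chain
-/

namespace Pool.Agent.Helper76.UF

open MvPolynomial

section q7_der

variable {K R M : Type*} [Field K] [CommRing R] [IsDomain R] [Algebra K R] [Field M] [Algebra R M]
  [IsFractionRing R M] [Algebra K M] [IsScalarTower K R M]

/-- A homomorphism to the dual numbers of the field of fractions gives a derivation. -/
theorem q7_der (θ : R →+* DualNumber M) (h1 : ∀ r, (θ r).fst = algebraMap R M r)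
    (h2 : ∀ c : K, (θ (algebraMap K R c)).snd = 0) :
    ∃ δ : Derivation K M M, ∀ r, δ (algebraMap R M r) = (θ r).snd := by
  have hu : ∀ y : nonZeroDivisors R, IsUnit (θ y) := by
    intro y
    apply isUnit_dual
    rw [h1]
    exact IsFractionRing.to_map_ne_zero_of_mem_nonZeroDivisors y.2
  obtain ⟨Θ, hΘ⟩ : ∃ Θ : M →+* DualNumber M, ∀ r, Θ (algebraMap R M r) = θ r :=
    ⟨IsLocalization.lift hu, fun r => IsLocalization.lift_eq hu r⟩
  have hfst : ∀ x, (Θ x).fst = x := by
    have h3 : (TrivSqZeroExt.fstHom M M M : DualNumber M →+* M).comp Θ = RingHom.id M := by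
      refine IsLocalization.ringHom_ext (nonZeroDivisors R) (RingHom.ext fun r => ?_)
      show (Θ (algebraMap R M r)).fst = algebraMap R M r
      rw [hΘ, h1]
    intro x
    exact congrArg (fun g : M →+* M => g x) h3
  have hc : ∀ c : K, (Θ (algebraMap K M c)).snd = 0 := by
    intro c
    rw [IsScalarTower.algebraMap_apply K R M, hΘ, h2]
  obtain ⟨L, hL⟩ : ∃ L : M →ₗ[K] M, ∀ x, L x = (Θ x).snd := by
    refine ⟨
      { toFun := fun x => (Θ x).snd
        map_add' := fun x y => ?_
        map_smul' := fun c x => ?_ }, fun _ => rfl⟩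
    · rw [map_add, TrivSqZeroExt.snd_add]
    · rw [Algebra.smul_def, map_mul, TrivSqZeroExt.snd_mul, hc, hfst, hfst, RingHom.id_apply]
      simp [Algebra.smul_def]
  refine ⟨Derivation.mk' L fun x y => ?_, fun r => ?_⟩
  · rw [hL, hL, hL, map_mul, TrivSqZeroExt.snd_mul, hfst, hfst]
    simp [mul_comm]
  · show L (algebraMap R M r) = (θ r).snd
    rw [hL, hΘ]

end q7_der

/-- Proof. Let `R = MvPolynomial (Fin (k + 1) × Par m (Fin n)) K` and `M` its field of fractions.
Let `Xπ j p = X (j, p)` for `j < k + 1` and `C (π j p)` otherwise, and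
`V = chain (mapT C D) (C U) Xπ k`, with entries in `R` and then in `M`. The evaluation
`R → K` at `π` maps `Xπ` to `π`, so by `good_generic` (with `A = R`) `Good` holds over `M` and
`finrank_M Sn` is at least `m * (m + n) - (m + 2).choose 3`; by `Sn_le_TS` and `finrank_TS` (the
matrix `QM D_M V (gP (Xπ k))` is invertible, `Good.det`) it follows that `Sn = TS` over `M`.
`VanOn` is `vanOn_chain`, and the determinant of the block is nonzero as its value at `π` is.
Given `b ∈ TS D_M V = Sn`, `b = dch D_M U_M Xπ 0 v k` for some `v`. Let `θ : R → DualNumber M` be the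
`K`-algebra map with `X (j, p) ↦ X (j, p) + ε v j p`; its first part is the inclusion, so nonzero
elements of `R` are mapped to units (`isUnit_dual`) and `θ` extends to `M`, where its second part
is a derivation `δ` of `M` over `K`. (We may take `v j = 0` for `j ≥ k + 1`, since `dch .. k`
depends only on `v j` with `j < k`; see `rank_iff`.) By `map_chain` over `θ`, `θ (V i l)` is
`chain (dT D_M) (du U 0) (du Xπ v) k i l`, so `δ (V i l) = b i l`. -/
theorem generic_chain {m n k : ℕ} {K : Type*} [Field K] [CharZero K]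
    {D : Ten (Ix m (Fin n)) K} {U : Fin m → Ix m (Fin n) → K} {π : ℕ → Par m (Fin n) → K}
    (hF : Full D U π k) :
    ∃ V : Fin m → Ix m (Fin n) → FractionRing (MvPolynomial (Fin (k + 1) × Par m (Fin n)) K),
      VanOn (mapT (algebraMap K _) D) V ∧
      (∃ g : Pr m → Ix m (Fin n) → FractionRing (MvPolynomial (Fin (k + 1) × Par m (Fin n)) K),
        (QM (mapT (algebraMap K _) D) V g).det ≠ 0) ∧
      (Matrix.of fun i j => V i (.inl j)).det ≠ 0 ∧
      ∀ b ∈ TS (mapT (algebraMap K _) D) V, b ∈ Submodule.span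
        (FractionRing (MvPolynomial (Fin (k + 1) × Par m (Fin n)) K))
        {c : Fin m → Ix m (Fin n) → FractionRing (MvPolynomial (Fin (k + 1) × Par m (Fin n)) K) |
          ∃ δ : Derivation K (FractionRing (MvPolynomial (Fin (k + 1) × Par m (Fin n)) K))
            (FractionRing (MvPolynomial (Fin (k + 1) × Par m (Fin n)) K)),
            c = fun i l => δ (V i l)} := by
  classical
  set R := MvPolynomial (Fin (k + 1) × Par m (Fin n)) K with hR
  set M := FractionRing R with hM
  have hjinj : Function.Injective (algebraMap R M) := IsFractionRing.injective R M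
  have hKM : Function.Injective (algebraMap K M) := (algebraMap K M).injective
  have : CharZero M := charZero_of_injective_algebraMap hKM
  obtain ⟨Xπ, hXπ⟩ : ∃ Xπ : ℕ → Par m (Fin n) → R, Xπ = fun j p =>
    if h : j < k + 1 then X (⟨j, h⟩, p) else C (π j p) := ⟨_, rfl⟩
  obtain ⟨f, hfC, hfX⟩ : ∃ f : R →+* K, (∀ c, f (C c) = c) ∧ ∀ j p, f (Xπ j p) = π j p := by
    refine ⟨MvPolynomial.eval (fun t => π t.1 t.2), fun c => MvPolynomial.eval_C c,
      fun j p => ?_⟩
    rw [hXπ]
    simp only
    split_ifs with h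
    · exact MvPolynomial.eval_X _
    · exact MvPolynomial.eval_C _
  have hCM : ∀ c : K, algebraMap R M (C c) = algebraMap K M c := by
    intro c
    rw [IsScalarTower.algebraMap_apply K R M, MvPolynomial.algebraMap_eq]
  have e1 : mapT f (mapT (C : K →+* R) D) = D := by
    funext i j l
    exact hfC _
  have e2 : (fun (i : Fin m) (l : Ix m (Fin n)) => f ((fun i l => C (U i l) :
      Fin m → Ix m (Fin n) → R) i l)) = U := by
    funext i l
    exact hfC _
  have e3 : (fun a p => f (Xπ a p)) = π := by
    funext a p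
    exact hfX a p
  have e4 : mapT (algebraMap R M) (mapT (C : K →+* R) D) = mapT (algebraMap K M) D := by
    funext i j l
    exact hCM _
  obtain ⟨UM, hUM⟩ : ∃ UM : Fin m → Ix m (Fin n) → M, UM = fun i l =>
    algebraMap R M ((fun i l => C (U i l) : Fin m → Ix m (Fin n) → R) i l) := ⟨_, rfl⟩
  obtain ⟨πM, hπM⟩ : ∃ πM : ℕ → Par m (Fin n) → M, πM = fun a p =>
    algebraMap R M (Xπ a p) := ⟨_, rfl⟩
  have hgen := good_generic f (algebraMap R M) hjinj (mapT (C : K →+* R) D)
    (fun i l => C (U i l)) Xπ k (m * (m + n) - (m + 2).choose 3)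
    (by rw [e1, e2, e3]; exact hF.good)
    (by
      rw [e1, e2, e3]
      have := hF.rank
      omega)
  rw [e4, ← hUM, ← hπM] at hgen
  obtain ⟨hgood, hrk⟩ := hgen
  obtain ⟨W, hW⟩ : ∃ W : Fin m → Ix m (Fin n) → R, W = chain (mapT (C : K →+* R) D)
    (fun i l => C (U i l)) Xπ k := ⟨_, rfl⟩
  have hV : chain (mapT (algebraMap K M) D) UM πM k = fun i l => algebraMap R M (W i l) := by
    funext i l
    rw [hW, map_chain, e4, ← hUM, ← hπM]
  have hsym : IsSym (mapT (algebraMap K M) D) := hF.sym.map _
  have hvan0 : VanOn (mapT (algebraMap K M) D) UM := by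
    intro i j l
    have h1 := hF.van i j l
    have h2 := tri_map D (algebraMap K M) (U i) (U j) (U l)
    rw [h1, map_zero] at h2
    rw [h2, hUM]
    simp only [hCM]
  have hdet := hgood.det k le_rfl
  refine ⟨chain (mapT (algebraMap K M) D) UM πM k, vanOn_chain field_three hsym hvan0 πM k,
    ⟨gP (πM k), hdet⟩, ?_, ?_⟩
  · have h1 : (Matrix.of fun i j => chain (mapT (algebraMap K M) D) UM πM k i (.inl j)).det =
        algebraMap R M (Matrix.of fun i j => W i (.inl j)).det := by
      rw [hV, RingHom.map_det]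
      rfl
    have h2 : f (Matrix.of fun i j => W i (.inl j)).det =
        (Matrix.of fun i j => chain D U π k i (.inl j)).det := by
      rw [RingHom.map_det]
      congr 1
      ext i j
      show f (W i (.inl j)) = chain D U π k i (.inl j)
      rw [hW, map_chain, e1, e2, e3]
    rw [h1]
    intro h3
    have h4 : (Matrix.of fun i j => W i (.inl j)).det = 0 :=
      hjinj (by rw [h3, map_zero])
    rw [h4, map_zero] at h2
    exact hF.chart h2.symm
  · intro b hb
    have hTS := finrank_TS (mapT (algebraMap K M) D) hsym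
      (chain (mapT (algebraMap K M) D) UM πM k) (gP (πM k)) hdet
    rw [Fintype.card_fin] at hTS
    have hle := Sn_le_TS hsym hvan0 πM k
    have heq : Sn (mapT (algebraMap K M) D) UM πM k =
        TS (mapT (algebraMap K M) D) (chain (mapT (algebraMap K M) D) UM πM k) :=
      Submodule.eq_of_le_of_finrank_le hle (by omega)
    rw [← heq] at hb
    obtain ⟨v, hv⟩ := (mem_Sn _ _ _ _ _).1 hb
    obtain ⟨θ, hθC, hθX⟩ : ∃ θ : R →+* DualNumber M,
        (∀ c, θ (C c) = TrivSqZeroExt.inl (algebraMap K M c)) ∧
        ∀ t : Fin (k + 1) × Par m (Fin n), θ (X t) =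
          TrivSqZeroExt.inl (algebraMap R M (X t)) + TrivSqZeroExt.inr (v t.1 t.2) :=
      ⟨MvPolynomial.eval₂Hom ((TrivSqZeroExt.inlHom M M).comp (algebraMap K M)) fun t =>
        TrivSqZeroExt.inl (algebraMap R M (X t)) + TrivSqZeroExt.inr (v t.1 t.2),
        fun c => MvPolynomial.eval₂Hom_C _ _ _, fun t => MvPolynomial.eval₂Hom_X' _ _ _⟩
    have hθ1 : ∀ r, (θ r).fst = algebraMap R M r := by
      have h3 : (TrivSqZeroExt.fstHom M M M : DualNumber M →+* M).comp θ = algebraMap R M := by
        refine MvPolynomial.ringHom_ext (fun c => ?_) fun t => ?_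
        · show (θ (C c)).fst = _
          rw [hθC, hCM]
          rfl
        · show (θ (X t)).fst = _
          rw [hθX]
          simp
      intro r
      exact congrArg (fun g : R →+* M => g r) h3
    obtain ⟨δ, hδ⟩ := q7_der (K := K) θ hθ1 (fun c => by
      rw [MvPolynomial.algebraMap_eq, hθC]
      rfl)
    refine Submodule.subset_span ⟨δ, ?_⟩
    funext i l
    rw [hV]
    simp only
    rw [hδ, hW, map_chain]
    obtain ⟨v', hv'⟩ : ∃ v' : ℕ → Par m (Fin n) → M, v' = fun j p =>
      if j < k + 1 then v j p else 0 := ⟨_, rfl⟩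
    have d1 : mapT θ (mapT (C : K →+* R) D) = dT (mapT (algebraMap K M) D) := by
      funext i j l
      exact hθC _
    have d2 : (fun (i : Fin m) (l : Ix m (Fin n)) => θ ((fun i l => C (U i l) :
        Fin m → Ix m (Fin n) → R) i l)) = fun i => du (UM i)
          ((0 : Fin m → Ix m (Fin n) → M) i) := by
      funext i l
      show θ (C (U i l)) = _
      rw [hθC, hUM]
      simp only [du, hCM, Pi.zero_apply, TrivSqZeroExt.inr_zero, add_zero]
    have d3 : (fun a p => θ (Xπ a p)) = fun a => du (πM a) (v' a) := by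
      funext a p
      rw [hπM, hXπ, hv']
      simp only [du]
      split_ifs with h
      · exact hθX _
      · rw [hθC, hCM, TrivSqZeroExt.inr_zero, add_zero]
    rw [d1, d2, d3, ← hv]
    show _ = dch (mapT (algebraMap K M) D) UM πM 0 v' k i l
    rw [q8a_loc (mapT (algebraMap K M) D) UM πM 0 v v' k (fun j hj => ?_)]
    funext p
    rw [hv']
    simp only
    rw [if_pos (by omega)]

end Pool.Agent.Helper76.UF
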