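import Pool.Agent.Helper76.UF.Defs3

/-!
# Points on a variety dominated by an affine space
-/

namespace Pool.Agent.Helper76.UF

open MvPolynomial

/-- Proof. Write `a q = u q / w` with a common denominator `w ≠ 0` and `d` the total degree of
`f`. Then `w ^ d * aeval a f` is the image of a nonzero polynomial `g`, and there is a point `x`
with `eval x (g * w) ≠ 0` (`MvPolynomial.funext`, `K` infinite; `S` may be infinite). Let
`y q = eval x (u q) / eval x w`: the local ring homomorphism `aeval a f ↦ aeval y f` is evaluation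
at `x` on the localization of `MvPolynomial S K` at the powers of `w`. -/
theorem exists_pt {K : Type*} [Field K] [Infinite K] {S σ : Type*} [Finite σ]
    (a : σ → FractionRing (MvPolynomial S K)) (f : MvPolynomial σ K) (hf : aeval a f ≠ 0) :
    ∃ y : σ → K, eval y f ≠ 0 ∧ ∀ g : MvPolynomial σ K, aeval a g = 0 → eval y g = 0 := by
  classical
  obtain ⟨b, hb⟩ := IsLocalization.exist_integer_multiples_of_finite
    (nonZeroDivisors (MvPolynomial S K)) a
  set w : MvPolynomial S K := (b : MvPolynomial S K) with hw
  have hw0 : w ≠ 0 := nonZeroDivisors.coe_ne_zero b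
  choose u hu using hb
  have hwF : algebraMap (MvPolynomial S K) (FractionRing (MvPolynomial S K)) w ≠ 0 := by
    intro h
    exact hw0 ((IsFractionRing.injective (MvPolynomial S K)
      (FractionRing (MvPolynomial S K))) (by rw [h, map_zero]))
  let A := Localization.Away w
  obtain ⟨iota, hiota⟩ : ∃ iota : A →+* FractionRing (MvPolynomial S K),
      ∀ r : MvPolynomial S K, iota (algebraMap _ A r) = algebraMap _ _ r :=
    ⟨IsLocalization.Away.lift w (isUnit_iff_ne_zero.mpr hwF), fun r =>
      IsLocalization.Away.lift_eq w (isUnit_iff_ne_zero.mpr hwF) r⟩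
  have hwA : IsUnit (algebraMap (MvPolynomial S K) A w) :=
    IsLocalization.Away.algebraMap_isUnit w
  have hinj : ∀ z : A, iota z = 0 → z = 0 := by
    intro z hz
    obtain ⟨⟨g, s⟩, h⟩ := IsLocalization.surj (Submonoid.powers w) z
    have hs : IsUnit (algebraMap (MvPolynomial S K) A (s : MvPolynomial S K)) :=
      IsLocalization.map_units A s
    have h1 : algebraMap (MvPolynomial S K) (FractionRing (MvPolynomial S K)) g = 0 := by
      rw [← hiota g]
      have h' : algebraMap (MvPolynomial S K) A g = z * algebraMap (MvPolynomial S K) A s := h.symm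
      rw [h', map_mul, hz, zero_mul]
    have h2 : g = 0 := (IsFractionRing.injective (MvPolynomial S K)
      (FractionRing (MvPolynomial S K))) (by rw [h1, map_zero])
    have h3 : z * algebraMap (MvPolynomial S K) A s = 0 := by
      have h' : z * algebraMap (MvPolynomial S K) A s = algebraMap (MvPolynomial S K) A g := h
      rw [h', h2, map_zero]
    exact (hs.mul_left_eq_zero).mp h3
  obtain ⟨j, hj⟩ : ∃ j : K →+* A, ∀ r, j r = algebraMap (MvPolynomial S K) A (C r) :=
    ⟨(algebraMap (MvPolynomial S K) A).comp C, fun r => rfl⟩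
  let a' : σ → A := fun q => algebraMap (MvPolynomial S K) A (u q) * ((hwA.unit⁻¹ : Aˣ) : A)
  have hunit : ((hwA.unit⁻¹ : Aˣ) : A) * algebraMap (MvPolynomial S K) A w = 1 := by
    have := hwA.unit.inv_mul
    simp
  have ha' : ∀ q, iota (a' q) = a q := by
    intro q
    have h1 : iota (a' q) * algebraMap _ _ w = algebraMap _ _ (u q) := by
      rw [← hiota w, ← hiota (u q), ← map_mul]
      congr 1
      change algebraMap (MvPolynomial S K) A (u q) * ((hwA.unit⁻¹ : Aˣ) : A) *
        algebraMap (MvPolynomial S K) A w = _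
      rw [mul_assoc, hunit, mul_one]
    have h2 : algebraMap _ _ (u q) = algebraMap (MvPolynomial S K)
        (FractionRing (MvPolynomial S K)) w * a q := by
      rw [hu q]
      rw [Algebra.smul_def]
    rw [h2, mul_comm] at h1
    exact mul_left_cancel₀ hwF h1
  have key : ∀ g : MvPolynomial σ K, iota (eval₂ j a' g) = aeval a g := by
    intro g
    rw [hom_eval₂, aeval_def]
    have e1 : iota.comp j = algebraMap K (FractionRing (MvPolynomial S K)) := by
      refine RingHom.ext fun r => ?_
      rw [IsScalarTower.algebraMap_apply K (MvPolynomial S K), algebraMap_eq, ← hiota,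
        RingHom.comp_apply, hj]
    have e2 : (fun i => iota (a' i)) = a := funext ha'
    rw [e1, e2]
  have hfA : eval₂ j a' f ≠ 0 := by
    intro h
    apply hf
    rw [← key f, h, map_zero]
  obtain ⟨⟨g, s⟩, hgs⟩ := IsLocalization.surj (Submonoid.powers w) (eval₂ j a' f)
  have hgs' : eval₂ j a' f * algebraMap (MvPolynomial S K) A s =
    algebraMap (MvPolynomial S K) A g := hgs
  have hsA : IsUnit (algebraMap (MvPolynomial S K) A (s : MvPolynomial S K)) :=
    IsLocalization.map_units A s
  have hg0 : g ≠ 0 := by
    intro h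
    rw [h, map_zero] at hgs'
    exact hfA ((hsA.mul_left_eq_zero).mp hgs')
  have hgw : g * w ≠ 0 := mul_ne_zero hg0 hw0
  have hex : ∃ x : S → K, eval x (g * w) ≠ 0 := by
    by_contra hcon
    push Not at hcon
    exact hgw (MvPolynomial.funext fun x => by rw [hcon x, map_zero])
  obtain ⟨x, hx⟩ := hex
  rw [map_mul] at hx
  have hxg : eval x g ≠ 0 := left_ne_zero_of_mul hx
  have hxw : eval x w ≠ 0 := right_ne_zero_of_mul hx
  obtain ⟨phi, hphi⟩ : ∃ phi : A →+* K,
      ∀ r : MvPolynomial S K, phi (algebraMap _ A r) = eval x r :=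
    ⟨IsLocalization.Away.lift w (isUnit_iff_ne_zero.mpr hxw), fun r =>
      IsLocalization.Away.lift_eq w (isUnit_iff_ne_zero.mpr hxw) r⟩
  have key2 : ∀ g : MvPolynomial σ K, phi (eval₂ j a' g) = eval (fun q => phi (a' q)) g := by
    intro g
    rw [hom_eval₂, ← eval₂_id]
    have e1 : phi.comp j = RingHom.id K := by
      refine RingHom.ext fun r => ?_
      rw [RingHom.comp_apply, hj, hphi, eval_C, RingHom.id_apply]
    rw [e1]
  refine ⟨fun q => phi (a' q), ?_, ?_⟩
  · rw [← key2 f]
    intro h
    apply hxg
    rw [← hphi g, ← hgs', map_mul, h, zero_mul]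
  · intro g' hg'
    rw [← key2 g']
    have : eval₂ j a' g' = 0 := hinj _ (by rw [key g', hg'])
    rw [this, map_zero]

end Pool.Agent.Helper76.UF
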