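import Pool.Agent.Helper76.UF.Defs3

/-!
# Algebraic dependence from tangent vectors
-/

namespace Pool.Agent.Helper76.UF

open MvPolynomial

theorem q2a_aeval {K A : Type*} [CommRing K] [CommRing A] [Algebra K A] {σ : Type*} [Fintype σ]
    (D : Derivation K A A) (b : σ → A) (f : MvPolynomial σ K) :
    D (aeval b f) = ∑ q, aeval b (pderiv q f) * D (b q) := by
  classical
  induction f using MvPolynomial.induction_on with
  | C a => simp
  | add p q hp hq => simp only [map_add, hp, hq, add_mul, Finset.sum_add_distrib]
  | mul_X p i hp =>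
    have h1 : ∀ q, aeval b (pderiv q (p * X i)) * D (b q) =
        b i * (aeval b (pderiv q p) * D (b q)) + (if q = i then aeval b p * D (b q) else 0) := by
      intro q
      rw [pderiv_mul, pderiv_X, map_add, map_mul, map_mul, aeval_X]
      by_cases hq : q = i
      · subst hq
        simp
        ring
      · rw [Pi.single_eq_of_ne' hq, map_zero, if_neg hq]
        ring
    simp_rw [h1]
    rw [Finset.sum_add_distrib, ← Finset.mul_sum, ← hp, Finset.sum_ite_eq' Finset.univ i,
      if_pos (Finset.mem_univ i), map_mul, aeval_X, Derivation.leibniz]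
    simp only [smul_eq_mul]
    ring

theorem q2a_unram {F L : Type*} [Field F] [Field L] [Algebra F L]
    (h : ∀ δ : Derivation F L L, δ = 0) : Algebra.FormallyUnramified F L := by
  constructor
  refine ⟨fun x y => ?_⟩
  have key : ∀ x : Ω[L⁄F], x = 0 := by
    intro x
    rw [← Module.forall_dual_apply_eq_zero_iff L]
    intro φ
    have h1 : (KaehlerDifferential.linearMapEquivDerivation F L) φ = 0 := h _
    have h2 : φ = 0 := by
      rw [← LinearEquiv.map_eq_zero_iff (KaehlerDifferential.linearMapEquivDerivation F L)]
      exact h1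
    rw [h2]
    rfl
  rw [key x, key y]

/-- Proof. We may replace `E` by the subfield `E' = IntermediateField.adjoin K (Set.range b)`
(hypothesis `h` for vectors in `E'` is a consequence; `E'` is a finitely generated field over
`K`). Let `F = IntermediateField.adjoin K (b '' J)`. A derivation `δ` of `E'` over `F` satisfies
`0 = δ (aeval b f) = ∑ q, aeval b (pderiv q f) * δ (b q)` for `f ∈ I` and `δ (b q) = 0` for
`q ∈ J`, so `δ (b q) = 0` for all `q`, so `δ = 0`. Hence the Kaehler differentials of `E'` over
`F` vanish (a vector space over `E'` without nonzero linear forms), `E'` is formally unramified and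
essentially of finite type over `F`, so it is a separable algebraic extension
(`Algebra.FormallyUnramified.isSeparable`). -/
theorem isAlgebraic_of_tangent {K E : Type*} [Field K] [CharZero K] [Field E] [Algebra K E]
    {σ : Type*} [Fintype σ] (b : σ → E) (I : Ideal (MvPolynomial σ K))
    (hI : ∀ f ∈ I, aeval b f = 0) (J : Finset σ)
    (h : ∀ τ : σ → E, (∀ f ∈ I, ∑ q, aeval b (pderiv q f) * τ q = 0) →
      (∀ q ∈ J, τ q = 0) → τ = 0) (f : MvPolynomial σ K) :
    IsAlgebraic (IntermediateField.adjoin K (b '' (J : Set σ))) (aeval b f) := by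
  classical
  set F := IntermediateField.adjoin K (b '' (J : Set σ)) with hF
  set L := IntermediateField.adjoin F (Set.range b) with hL
  let bb : σ → L := fun q => ⟨b q, IntermediateField.subset_adjoin F _ ⟨q, rfl⟩⟩
  have hKL : IsScalarTower K L E := IsScalarTower.of_algebraMap_eq fun x => rfl
  have hbb : ∀ g : MvPolynomial σ K, (algebraMap L E) (aeval bb g) = aeval b g := by
    intro g
    rw [← MvPolynomial.aeval_algebraMap_apply]
    rfl
  have hder : ∀ δ : Derivation F L L, δ = 0 := by
    intro δ
    have h1 : (fun q => ((δ (bb q) : L) : E)) = 0 := by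
      refine h _ ?_ ?_
      · intro g hg
        have h2 := q2a_aeval (δ.restrictScalars K) bb g
        have h3 : aeval bb g = 0 := by
          apply (algebraMap L E).injective
          rw [hbb, map_zero]
          exact hI g hg
        rw [h3, map_zero] at h2
        have h4 := congrArg (algebraMap L E) h2
        rw [map_zero, map_sum] at h4
        simp only [map_mul, hbb] at h4
        exact h4.symm
      · intro q hq
        have h5 : bb q = algebraMap F L ⟨b q, IntermediateField.subset_adjoin K _ ⟨q, hq, rfl⟩⟩ :=
          rfl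
        show ((δ (bb q) : L) : E) = 0
        rw [h5, Derivation.map_algebraMap]
        rfl
    have h2 : ∀ q, δ (bb q) = 0 := fun q => Subtype.ext (congrFun h1 q)
    ext ⟨x, hx⟩
    refine congrArg Subtype.val (?_ : δ ⟨x, hx⟩ = 0)
    refine IntermediateField.adjoin_induction (F := F) (s := Set.range b)
      (p := fun x hx => δ (⟨x, hx⟩ : L) = 0) ?_ ?_ ?_ ?_ ?_ hx
    · rintro _ ⟨q, rfl⟩
      exact h2 q
    · intro x
      exact Derivation.map_algebraMap δ x
    · intro x y hx hy h3 h4
      have : (⟨x + y, add_mem hx hy⟩ : L) = ⟨x, hx⟩ + ⟨y, hy⟩ := rfl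
      rw [this, map_add, h3, h4, add_zero]
    · intro x hx h3
      have : (⟨x⁻¹, inv_mem hx⟩ : L) = (⟨x, hx⟩ : L)⁻¹ := rfl
      rw [this, Derivation.leibniz_inv, h3, smul_zero]
    · intro x y hx hy h3 h4
      have : (⟨x * y, mul_mem hx hy⟩ : L) = ⟨x, hx⟩ * ⟨y, hy⟩ := rfl
      rw [this, Derivation.leibniz, h3, h4, smul_zero, smul_zero, add_zero]
  have hu : Algebra.FormallyUnramified F L := q2a_unram hder
  have he : Algebra.EssFiniteType F L := by
    rw [IntermediateField.essFiniteType_iff]
    refine ⟨Finset.univ.image b, ?_⟩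
    rw [Finset.coe_image, Finset.coe_univ, Set.image_univ]
  have hs : Algebra.IsSeparable F L := Algebra.FormallyUnramified.isSeparable F L
  have ha : IsAlgebraic F (aeval bb f) := (Algebra.IsSeparable.isAlgebraic F L).isAlgebraic _
  rw [← hbb f]
  exact ha.algebraMap

end Pool.Agent.Helper76.UF
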