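import Pool.Agent.Helper76.UF.Sq.Q8a
import Pool.Agent.Helper76.UF.St.P4
import Pool.Agent.Helper76.UF.St.P6

/-!
# Linear spaces in cubic hypersurfaces: the certificate
-/

namespace Pool.Agent.Helper76.UF

open MvPolynomial

section q8_basic

variable {m : ℕ} {ω : Type*} [Fintype ω] {A : Type*} [CommRing A]

omit [Fintype ω] in
theorem q8_symvan_sym (c : Ten (Ix m ω) A) : IsSym (symvan c) := by
  constructor
  · intro i j k
    rcases i with i | i <;> rcases j with j | j <;> rcases k with k | k <;>
      simp only [symvan] <;> ring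
  · intro i j k
    rcases i with i | i <;> rcases j with j | j <;> rcases k with k | k <;>
      simp only [symvan] <;> ring

theorem q8_tri_std (D : Ten (Ix m ω) A) (i j k : Fin m) :
    tri D (std m ω A i) (std m ω A j) (std m ω A k) = D (.inl i) (.inl j) (.inl k) := by
  simp [tri, std, Fintype.sum_sum_type]

theorem q8_symvan_van (c : Ten (Ix m ω) A) : VanOn (symvan c) (std m ω A) := by
  intro i j k
  rw [q8_tri_std]
  rfl

theorem q8_symvan_eq (D : Ten (Ix m ω) ℝ) (hD : IsSym D) (h0 : VanOn D (std m _ ℝ)) (r : ℝ) :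
    symvan (fun i j l => r * D i j l / 6) = fun i j l => r * D i j l := by
  have h1 : ∀ i j k, D i j k = D j i k := hD.swap12
  have h2 : ∀ i j k, D i j k = D i k j := hD.swap23
  have key : ∀ i j k, r * D i j k / 6 + r * D i k j / 6 + r * D j i k / 6 + r * D j k i / 6 +
      r * D k i j / 6 + r * D k j i / 6 = r * D i j k := by
    intro i j k
    have e1 : D i k j = D i j k := h2 _ _ _
    have e2 : D j i k = D i j k := h1 _ _ _
    have e3 : D j k i = D i j k := by rw [h2, h1]
    have e4 : D k i j = D i j k := by rw [h1, h2]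
    have e5 : D k j i = D i j k := by rw [h1, e3]
    rw [e1, e2, e3, e4, e5]
    ring
  funext i j k
  rcases i with i | i
  · rcases j with j | j
    · rcases k with k | k
      · have h3 : D (.inl i) (.inl j) (.inl k) = 0 :=
          (q8_tri_std D i j k).symm.trans (h0 i j k)
        rw [h3, mul_zero]
        rfl
      · exact key _ _ _
    · exact key _ _ _
  · exact key _ _ _

theorem q8_chain_congr (D : Ten (Ix m ω) A) (U : Fin m → Ix m ω → A) (π π' : ℕ → Par m ω → A)
    (n : ℕ) (h : ∀ j < n, π j = π' j) : chain D U π n = chain D U π' n := by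
  induction n with
  | zero => rfl
  | succ n ih => rw [chain, chain, ih fun j hj => h j (by omega), h n (by omega)]

theorem q8_good_congr (D : Ten (Ix m ω) A) (U : Fin m → Ix m ω → A) (π π' : ℕ → Par m ω → A)
    (n : ℕ) (h : ∀ j < n + 1, π j = π' j) (hg : Good D U π n) : Good D U π' n := by
  refine ⟨fun i hi => ?_, fun i hi => ?_⟩
  · have h1 := hg.det i hi
    rw [q8_chain_congr D U π π' i fun j hj => h j (by omega), h i (by omega)] at h1
    exact h1
  · have h1 := hg.w i hi
    rw [q8_chain_congr D U π π' i fun j hj => h j (by omega), h i (by omega)] at h1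
    exact h1

theorem q8_Sn_congr (D : Ten (Ix m ω) A) (U : Fin m → Ix m ω → A) (π π' : ℕ → Par m ω → A)
    (n : ℕ) (h : ∀ j < n, π j = π' j) : Sn D U π n = Sn D U π' n := by
  have key : ∀ v, dch D U π 0 v n = dch D U π' 0 v n := by
    intro v
    funext i l
    rw [dch, dch, q8_chain_congr _ _ _ (fun k => du (π' k) (v k)) n fun j hj => by rw [h j hj]]
  ext b
  rw [mem_Sn, mem_Sn]
  simp only [key]

theorem q8_mulVec_uU {n k : ℕ} (x : Uv m n k → A) (i : Fin m) :
    (uh x).mulVec (uU x i) = (uh x).det • std m (Fin n) A i := by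
  funext l
  have h1 : (uh x).mulVec (uU x i) l = ((uh x) * (uh x).adjugate) l (.inl i) := rfl
  rw [h1, Matrix.mul_adjugate, Matrix.smul_apply, Pi.smul_apply]
  congr 1
  rcases l with l | l
  · simp [std, Matrix.one_apply]
  · simp [std]

end q8_basic

section q8_field

variable {m : ℕ} {K : Type*} [Field K] [CharZero K]

omit [CharZero K] in
theorem q8_transfer {ω ω' : Type*} [Fintype ω] [Fintype ω'] [DecidableEq ω] [DecidableEq ω']
    (D : Ten (Ix m ω) K)
    (G : Matrix (Ix m ω) (Ix m ω') K)
    (G' : Matrix (Ix m ω') (Ix m ω) K) (h : G * G' = 1) (h' : G' * G = 1)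
    (U : Fin m → Ix m ω → K) (U' : Fin m → Ix m ω' → K) (hU : ∀ i, G.mulVec (U' i) = U i)
    (π : ℕ → Par m ω → K) (n : ℕ) (hg : Good D U π n) :
    Good (compT D G) U' (fun k => actP G' (π k)) n ∧
      Module.finrank K (Sn (compT D G) U' (fun k => actP G' (π k)) n) =
        Module.finrank K (Sn D U π n) ∧
      ∀ i, chain (compT D G) U' (fun k => actP G' (π k)) n i = G'.mulVec (chain D U π n i) := by
  have hU2 : (fun i => G.mulVec (U' i)) = U := funext hU
  have hP : ∀ p : Par m ω → K, actP G (actP G' p) = p := 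
    p6_actP_actP G G' (by convert h)
  have hc : ∀ i, (fun j => G.mulVec (chain (compT D G) U' (fun k => actP G' (π k)) i j)) =
      chain D U π i := by
    intro i
    funext j
    rw [mulVec_chain, hU2]
    simp only [hP]
  refine ⟨⟨?_, ?_⟩, ?_, ?_⟩
  · intro i hi
    have h1 := hg.det i hi
    rw [QM_compT, hc]
    have h2 : (fun c => G.mulVec (gP (actP G' (π i)) c)) = gP (π i) := by
      have h3 : gP (actP G (actP G' (π i))) = fun c => G.mulVec (gP (actP G' (π i)) c) := rfl
      rw [← h3, hP]
    rw [h2]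
    exact h1
  · intro i hi
    have h1 := hg.w i hi
    rw [wf_compT, mulVec_yP, hc, hP]
    exact h1
  · let e : (Fin m → Ix m ω' → K) ≃ₗ[K] (Fin m → Ix m ω → K) :=
      { toFun := fun b i => G.mulVec (b i)
        map_add' := fun b c => by
          funext i
          exact Matrix.mulVec_add G (b i) (c i)
        map_smul' := fun r b => by
          funext i
          exact Matrix.mulVec_smul G r (b i)
        invFun := fun b i => G'.mulVec (b i)
        left_inv := fun b => by
          funext i
          change G'.mulVec (G.mulVec (b i)) = b i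
          rw [Matrix.mulVec_mulVec, h', Matrix.one_mulVec]
        right_inv := fun b => by
          funext i
          change G.mulVec (G'.mulVec (b i)) = b i
          rw [Matrix.mulVec_mulVec, h, Matrix.one_mulVec] }
    have key : ∀ v : ℕ → Par m ω' → K,
        e (dch (compT D G) U' (fun k => actP G' (π k)) 0 v n) =
          dch D U π 0 (fun k => actP G (v k)) n := by
      intro v
      funext i
      change G.mulVec (dch (compT D G) U' (fun k => actP G' (π k)) 0 v n i) = _
      rw [p6_dch, hU2]
      simp only [hP]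
      have h0 : (fun i => G.mulVec ((0 : Fin m → Ix m ω' → K) i)) = 0 := by
        funext i
        exact Matrix.mulVec_zero G
      rw [h0]
    have hmap : (Sn (compT D G) U' (fun k => actP G' (π k)) n).map e.toLinearMap =
        Sn D U π n := by
      ext b
      rw [Submodule.mem_map]
      constructor
      · rintro ⟨a, ha, rfl⟩
        obtain ⟨v, rfl⟩ := (mem_Sn _ _ _ _ _).1 ha
        exact (mem_Sn _ _ _ _ _).2 ⟨fun k => actP G (v k), (key v).symm⟩
      · intro hb
        obtain ⟨v, rfl⟩ := (mem_Sn _ _ _ _ _).1 hb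
        refine ⟨dch (compT D G) U' (fun k => actP G' (π k)) 0 (fun k => actP G' (v k)) n,
          (mem_Sn _ _ _ _ _).2 ⟨_, rfl⟩, ?_⟩
        have h1 := key (fun k => actP G' (v k))
        simp only [hP] at h1
        exact h1
    rw [← hmap]
    exact (LinearEquiv.finrank_map_eq e _).symm
  · intro i
    have h1 := congrFun (hc n) i
    rw [← h1]
    change _ = G'.mulVec (G.mulVec _)
    rw [Matrix.mulVec_mulVec, h', Matrix.one_mulVec]

theorem q8_li {ω : Type*} [Fintype ω] (D : Ten (Ix m ω) K) (hD : IsSym D)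
    (U : Fin m → Ix m ω → K) (g : Pr m → Ix m ω → K) (hdet : (QM D U g).det ≠ 0) :
    LinearIndependent K U := by
  rw [Fintype.linearIndependent_iff]
  intro c hc i
  obtain ⟨y, hy⟩ := p4_surj D hD U g hdet i i
  have h1 : tri D (∑ j, c j • U j) (U i) y = c i := by
    rw [tri_sum_left]
    simp only [tri_smul_left, hy]
    rw [Finset.sum_eq_single i]
    · simp
    · intro j _ hj
      rw [if_neg, mul_zero]
      intro h
      apply hj
      have h2 : j ∈ ({i, i} : Multiset (Fin m)) := by
        rw [← h]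
        simp
      simpa using h2
    · intro h
      exact absurd (Finset.mem_univ _) h
  rw [← h1, hc, tri_zero_left]

omit [CharZero K] in
theorem q8_sumExtend {V ι : Type*} [AddCommGroup V] [Module K V] {v : ι → V}
    (hs : LinearIndependent K v) (i : ι) : Module.Basis.sumExtend hs (.inl i) = v i := by
  classical
  simp only [Module.Basis.sumExtend, Module.Basis.reindex_apply]
  rw [Module.Basis.extend_apply_self]
  rfl

omit [CharZero K] in
/-- A linearly independent family extends to an invertible matrix. -/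
theorem q8_ext {n : ℕ} (U : Fin m → Ix m (Fin n) → K) (h : LinearIndependent K U) :
    ∃ H : Matrix (Ix m (Fin n)) (Ix m (Fin n)) K, H.det ≠ 0 ∧
      ∀ i, H.mulVec (std m (Fin n) K i) = U i := by
  classical
  let b := Module.Basis.sumExtend h
  have : Finite (Module.Basis.sumExtendIndex h) := by
    have h1 : Finite (Fin m ⊕ Module.Basis.sumExtendIndex h) := Module.Finite.finite_basis b
    exact Finite.of_injective (Sum.inr : _ → Fin m ⊕ Module.Basis.sumExtendIndex h)
      Sum.inr_injective
  have : Fintype (Module.Basis.sumExtendIndex h) := Fintype.ofFinite _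
  have hc : Fintype.card (Module.Basis.sumExtendIndex h) = n := by
    have h1 := Module.finrank_eq_card_basis b
    rw [Module.finrank_fintype_fun_eq_card] at h1
    simp only [Fintype.card_sum, Fintype.card_fin] at h1
    omega
  let e : Module.Basis.sumExtendIndex h ≃ Fin n := Fintype.equivFinOfCardEq hc
  let b' : Module.Basis (Ix m (Fin n)) K (Ix m (Fin n) → K) :=
    b.reindex (Equiv.sumCongr (Equiv.refl _) e)
  have hb' : ∀ i, b' (.inl i) = U i := by
    intro i
    simp only [b', Module.Basis.reindex_apply]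
    exact q8_sumExtend h i
  refine ⟨Matrix.of fun l c => b' c l, ?_, fun i => ?_⟩
  · have h1 : LinearIndependent K (Matrix.of fun l c => b' c l).col := b'.linearIndependent
    rw [Matrix.linearIndependent_cols_iff_isUnit, Matrix.isUnit_iff_isUnit_det] at h1
    exact h1.ne_zero
  · funext l
    rw [← hb', Matrix.mulVec, dotProduct, Fintype.sum_sum_type]
    simp [std]

end q8_field

section q8_map

variable {m n k : ℕ} {A B : Type*} [CommRing A] [CommRing B] (f : A →+* B) (x : Uv m n k → A)

theorem q8_map_uh : (uh x).map f = uh (fun s => f (x s)) := rfl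

theorem q8_map_uD : mapT f (uD x) = uD (fun s => f (x s)) := by
  rw [uD, mapT_compT, uD, q8_map_uh]
  congr 1
  funext i j l
  rcases i with i | i <;> rcases j with j | j <;> rcases l with l | l <;>
    simp [symvan, mapT]

theorem q8_map_uU : (fun i l => f (uU x i l)) = uU (fun s => f (x s)) := by
  funext i l
  rw [uU, uU, ← q8_map_uh]
  have h := congrFun (congrFun (RingHom.map_adjugate f (uh x)) l) (.inl i)
  exact h

theorem q8_map_uP : (fun j p => f (uP x j p)) = uP (fun s => f (x s)) := by
  funext j p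
  rw [uP, uP]
  split_ifs
  · rfl
  · exact map_zero f

theorem q8_det (i : ℕ) :
    (QM (uD (fun s => f (x s))) (chain (uD (fun s => f (x s))) (uU (fun s => f (x s)))
      (uP (fun s => f (x s))) i) (gP (uP (fun s => f (x s)) i))).det =
    f ((QM (uD x) (chain (uD x) (uU x) (uP x) i) (gP (uP x i))).det) := by
  rw [← q8a_det, q8_map_uD, q8_map_uU, q8_map_uP]
  rw [← q8_map_uP]

theorem q8_w (i : ℕ) :
    wf (uD (fun s => f (x s))) (chain (uD (fun s => f (x s))) (uU (fun s => f (x s)))
      (uP (fun s => f (x s))) i) (yP (uD (fun s => f (x s)))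
        (chain (uD (fun s => f (x s))) (uU (fun s => f (x s)))
      (uP (fun s => f (x s))) i) (uP (fun s => f (x s)) i)) (kP (uP (fun s => f (x s)) i)) =
    f (wf (uD x) (chain (uD x) (uU x) (uP x) i) (yP (uD x) (chain (uD x) (uU x) (uP x) i)
      (uP x i)) (kP (uP x i))) := by
  rw [← q8a_w, q8_map_uD, q8_map_uU, q8_map_uP]
  rw [← q8_map_uP]

theorem q8_chart (j : ℕ) :
    (Matrix.of fun i l => chain (uD (fun s => f (x s))) (uU (fun s => f (x s)))
      (uP (fun s => f (x s))) j i (.inl l)).det =
    f ((Matrix.of fun i l => chain (uD x) (uU x) (uP x) j i (.inl l)).det) := by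
  rw [← q8_map_uD, ← q8_map_uU, ← q8_map_uP, q8a_chain, RingHom.map_det]
  rfl

theorem q8_jac (r : ℕ) (t : Fin r → Fin k × Par m (Fin n)) (q : Fin r → Fin m × Ix m (Fin n)) :
    (Matrix.of fun i j => jac (uD (fun s => f (x s))) (uU (fun s => f (x s)))
      (uP (fun s => f (x s))) k (t i) (q j)).det =
    f ((Matrix.of fun i j => jac (uD x) (uU x) (uP x) k (t i) (q j)).det) := by
  rw [← q8_map_uD, ← q8_map_uU, ← q8_map_uP, RingHom.map_det]
  congr 1
  ext i j
  exact (map_jac f (uD x) (uU x) (uP x) k (t i) (q j)).symm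

end q8_map

/-- The real point. -/
theorem q8_point (m n k : ℕ) (Dr : Ten (Ix m (Fin n)) ℝ) (hD : IsSym Dr)
    (h0 : VanOn Dr (std m _ ℝ)) (π : ℕ → Par m (Fin n) → ℝ) (hg : Good Dr (std m _ ℝ) π k)
    (hr : Module.finrank ℝ (Sn Dr (std m _ ℝ) π k) + (m + 2).choose 3 = m * (m + n)) :
    ∃ x : Uv m n k → ℝ, (uh x).det ≠ 0 ∧ Good (uD x) (uU x) (uP x) k ∧
      m * (m + n) - (m + 2).choose 3 ≤ Module.finrank ℝ (Sn (uD x) (uU x) (uP x) k) ∧
      (Matrix.of fun i j => chain (uD x) (uU x) (uP x) k i (.inl j)).det ≠ 0 := by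
  obtain ⟨H, hH, hHU⟩ := q8_ext (chain Dr (std m _ ℝ) π k)
    (q8_li Dr hD _ (gP (π k)) (hg.det k le_rfl))
  set c : ℝ := H.det⁻¹ with hc
  have hcH : c * H.det = 1 := inv_mul_cancel₀ hH
  set G : Matrix (Ix m (Fin n)) (Ix m (Fin n)) ℝ := c • H with hG
  set G' : Matrix (Ix m (Fin n)) (Ix m (Fin n)) ℝ := H.adjugate with hG'
  have h1 : G * G' = 1 := by
    rw [hG, hG', Matrix.smul_mul, Matrix.mul_adjugate, smul_smul, hcH, one_smul]
  have h2 : G' * G = 1 := by
    rw [hG, hG', Matrix.mul_smul, Matrix.adjugate_mul, smul_smul, hcH, one_smul]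
  set π' : ℕ → Par m (Fin n) → ℝ := fun j => actP G' (π j) with hπ'
  let x : Uv m n k → ℝ := fun s => match s with
    | .inl (i, j, l) => c ^ 3 * Dr i j l / 6
    | .inr (.inl (i, j)) => H i j
    | .inr (.inr (j, p)) => π' j p
  have hx1 : uh x = H := rfl
  have hx2 : uD x = compT Dr G := by
    have e1 : uD x = compT (symvan (fun i j l => c ^ 3 * Dr i j l / 6)) H := rfl
    rw [e1, q8_symvan_eq Dr hD h0]
    funext i j l
    rw [compT, compT]
    have e2 : ∀ i, (fun l => G l i) = c • (fun l => H l i) := fun i => rfl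
    rw [e2, e2, e2, tri_smul_left, tri_smul_mid, tri_smul_right]
    have e3 : ∀ a b d : Ix m (Fin n) → ℝ, tri (fun i j l => c ^ 3 * Dr i j l) a b d =
        c ^ 3 * tri Dr a b d := by
      intro a b d
      simp only [tri, Finset.mul_sum]
      refine Finset.sum_congr rfl fun i _ => Finset.sum_congr rfl fun j _ =>
        Finset.sum_congr rfl fun k _ => ?_
      ring
    rw [e3]
    ring
  have hx3 : ∀ i, G.mulVec (uU x i) = std m (Fin n) ℝ i := by
    intro i
    have e1 := q8_mulVec_uU x i
    rw [hx1] at e1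
    rw [hG, Matrix.smul_mulVec, e1, smul_smul, hcH, one_smul]
  have hx4 : ∀ j < k + 1, uP x j = π' j := by
    intro j hj
    funext p
    rw [uP, dif_pos hj]
  obtain ⟨g1, g2, g3⟩ := q8_transfer Dr G G' h1 h2 (std m _ ℝ) (uU x) hx3 π k hg
  have hx4' : ∀ j < k + 1, π' j = uP x j := fun j hj => (hx4 j hj).symm
  refine ⟨x, hH, ?_, ?_, ?_⟩
  · rw [hx2]
    exact q8_good_congr _ _ _ _ k hx4' g1
  · rw [hx2, q8_Sn_congr _ _ _ π' k (fun j hj => hx4 j (by omega)), g2]
    omega
  · have e1 : (Matrix.of fun i j => chain (uD x) (uU x) (uP x) k i (.inl j)) =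
        H.det • (1 : Matrix (Fin m) (Fin m) ℝ) := by
      ext i j
      rw [Matrix.of_apply, hx2, q8_chain_congr _ _ _ π' k (fun j hj => hx4 j (by omega)), g3,
        ← hHU, hG', Matrix.mulVec_mulVec, Matrix.adjugate_mul, Matrix.smul_mulVec,
        Matrix.one_mulVec, Pi.smul_apply, Matrix.smul_apply]
      congr 1
      simp [std, Matrix.one_apply, eq_comm]
    rw [e1, Matrix.det_smul, Matrix.det_one, mul_one]
    exact pow_ne_zero _ hH

/-- Proof. Let `U_k = chain Dr std π k`; its `m` vectors are linearly independent, because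
`QM Dr U_k _` is invertible (a linear relation `c` among them would be in the kernel of all quadratic
forms). So there is an invertible real matrix `h` such that the left block of `h⁻¹ U_k` is
invertible (for instance `h` maps the first `m` unit vectors to the vectors of `U_k`). Let
`G = (det h)⁻¹ • h`, so `G (adj h e_i) = e_i`, and let `x` be the point with
`x (inl (i, j, l)) = (det h)⁻¹ ^ 3 * Dr i j l / 6`, matrix `uh x = h`, so that
`uD x = compT Dr G` (`symvan` of a multiple of `Dr` is a multiple of `Dr`, as `Dr` vanishes on the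
standard subspace) and `uU x i = adj h e_i = G⁻¹ (std i)`, and with parameters given by `π'` of
`transfer`: `π' j = actP G⁻¹ (π j)` (use the construction in `St/P6.lean`), for `j < k + 1`; the
conditions only depend on these parameters. So at this real point: `(uh x).det ≠ 0`, all the
determinants and values of `wf` in `Good`, some minor of size `m * (m + n) - (m + 2).choose 3` of
`jac` (`rank_iff`), and the block determinant of `chain (uD x) (uU x) (uP x) k` (that is of
`G⁻¹ U_k`) are nonzero. Let `v` be the product of these polynomials at the point `X` of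
`Uv m n k → MvPolynomial (Uv m n k) ℚ`. It is not zero, since its real value is not (`map_chain`,
`map_jac` etc. for `aeval x`).
Conversely if `aeval x v ≠ 0` over a field `L`: `uD x` is symmetric (`IsSym.comp`; `symvan c` is
symmetric); `uU x` is in the zero locus, since `uh x (adj e_i) = det (uh x) e_i` and `symvan c`
vanishes on the standard subspace; `Good`, the block determinant and
`r ≤ finrank Sn` (`rank_iff`) with `r = m * (m + n) - (m + 2).choose 3` are clear, and
`finrank Sn ≤ finrank TS = r` by `Sn_le_TS`, `finrank_TS`. -/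
theorem cert (m n k : ℕ) (Dr : Ten (Ix m (Fin n)) ℝ) (hD : IsSym Dr)
    (h0 : VanOn Dr (std m _ ℝ)) (π : ℕ → Par m (Fin n) → ℝ) (hg : Good Dr (std m _ ℝ) π k)
    (hr : Module.finrank ℝ (Sn Dr (std m _ ℝ) π k) + (m + 2).choose 3 = m * (m + n)) :
    ∃ v : MvPolynomial (Uv m n k) ℚ, v ≠ 0 ∧ ∀ (L : Type) [Field L] [CharZero L]
      (x : Uv m n k → L), aeval x v ≠ 0 → Full (uD x) (uU x) (uP x) k := by
  obtain ⟨x₀, hx1, hx2, hx3, hx4⟩ := q8_point m n k Dr hD h0 π hg hr
  rw [rank_iff] at hx3
  obtain ⟨t, q, htq⟩ := hx3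
  let y : Uv m n k → MvPolynomial (Uv m n k) ℚ := X
  let p1 := (uh y).det
  let p2 := fun i => (QM (uD y) (chain (uD y) (uU y) (uP y) i) (gP (uP y i))).det
  let p3 := fun i => wf (uD y) (chain (uD y) (uU y) (uP y) i)
    (yP (uD y) (chain (uD y) (uU y) (uP y) i) (uP y i)) (kP (uP y i))
  let p4 := (Matrix.of fun i j => jac (uD y) (uU y) (uP y) k (t i) (q j)).det
  let p5 := (Matrix.of fun i j => chain (uD y) (uU y) (uP y) k i (.inl j)).det
  have hy : ∀ (L : Type) [Field L] [CharZero L] (x : Uv m n k → L),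
      (fun s => (aeval x : MvPolynomial (Uv m n k) ℚ →ₐ[ℚ] L).toRingHom (y s)) = x := by
    intro L _ _ x
    funext s
    exact aeval_X x s
  have e1 : ∀ (L : Type) [Field L] [CharZero L] (x : Uv m n k → L),
      aeval x p1 = (uh x).det := by
    intro L _ _ x
    have h := RingHom.map_det (aeval x : MvPolynomial (Uv m n k) ℚ →ₐ[ℚ] L).toRingHom (uh y)
    have h2 := q8_map_uh (aeval x : MvPolynomial (Uv m n k) ℚ →ₐ[ℚ] L).toRingHom y
    rw [hy] at h2
    rw [← h2]
    exact h
  have e2 : ∀ (L : Type) [Field L] [CharZero L] (x : Uv m n k → L) (i : ℕ),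
      aeval x (p2 i) = (QM (uD x) (chain (uD x) (uU x) (uP x) i) (gP (uP x i))).det := by
    intro L _ _ x i
    have h := q8_det (aeval x : MvPolynomial (Uv m n k) ℚ →ₐ[ℚ] L).toRingHom y i
    rw [hy] at h
    exact h.symm
  have e3 : ∀ (L : Type) [Field L] [CharZero L] (x : Uv m n k → L) (i : ℕ),
      aeval x (p3 i) = wf (uD x) (chain (uD x) (uU x) (uP x) i)
        (yP (uD x) (chain (uD x) (uU x) (uP x) i) (uP x i)) (kP (uP x i)) := by
    intro L _ _ x i
    have h := q8_w (aeval x : MvPolynomial (Uv m n k) ℚ →ₐ[ℚ] L).toRingHom y i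
    rw [hy] at h
    exact h.symm
  have e4 : ∀ (L : Type) [Field L] [CharZero L] (x : Uv m n k → L),
      aeval x p4 = (Matrix.of fun i j => jac (uD x) (uU x) (uP x) k (t i) (q j)).det := by
    intro L _ _ x
    have h := q8_jac (aeval x : MvPolynomial (Uv m n k) ℚ →ₐ[ℚ] L).toRingHom y _ t q
    rw [hy] at h
    exact h.symm
  have e5 : ∀ (L : Type) [Field L] [CharZero L] (x : Uv m n k → L),
      aeval x p5 = (Matrix.of fun i j => chain (uD x) (uU x) (uP x) k i (.inl j)).det := by
    intro L _ _ x
    have h := q8_chart (aeval x : MvPolynomial (Uv m n k) ℚ →ₐ[ℚ] L).toRingHom y k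
    rw [hy] at h
    exact h.symm
  refine ⟨p1 * (∏ i ∈ Finset.range (k + 1), p2 i) * (∏ i ∈ Finset.range k, p3 i) * p4 * p5,
    ?_, ?_⟩
  · intro hv
    have h := congrArg (aeval x₀) hv
    rw [map_zero, map_mul, map_mul, map_mul, map_mul, map_prod, map_prod, e1, e4, e5] at h
    simp only [e2, e3] at h
    have n1 : ∏ i ∈ Finset.range (k + 1),
        (QM (uD x₀) (chain (uD x₀) (uU x₀) (uP x₀) i) (gP (uP x₀ i))).det ≠ 0 :=
      Finset.prod_ne_zero_iff.2 fun i hi => hx2.det i (by
        rw [Finset.mem_range] at hi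
        omega)
    have n2 : ∏ i ∈ Finset.range k, wf (uD x₀) (chain (uD x₀) (uU x₀) (uP x₀) i)
        (yP (uD x₀) (chain (uD x₀) (uU x₀) (uP x₀) i) (uP x₀ i)) (kP (uP x₀ i)) ≠ 0 :=
      Finset.prod_ne_zero_iff.2 fun i hi => hx2.w i (Finset.mem_range.1 hi)
    exact mul_ne_zero (mul_ne_zero (mul_ne_zero (mul_ne_zero hx1 n1) n2) htq) hx4 h
  · intro L _ _ x hx
    rw [map_mul, map_mul, map_mul, map_mul, map_prod, map_prod, e1, e4, e5] at hx
    simp only [e2, e3] at hx
    obtain ⟨hx, hx5⟩ := mul_ne_zero_iff.1 hx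
    obtain ⟨hx, hx4⟩ := mul_ne_zero_iff.1 hx
    obtain ⟨hx, hx3⟩ := mul_ne_zero_iff.1 hx
    obtain ⟨hx1, hx2⟩ := mul_ne_zero_iff.1 hx
    rw [Finset.prod_ne_zero_iff] at hx2 hx3
    have hsym : IsSym (uD x) := (q8_symvan_sym _).comp _
    have hvan : VanOn (uD x) (uU x) := by
      intro i j l
      rw [uD, tri_compT, q8_mulVec_uU, q8_mulVec_uU, q8_mulVec_uU, tri_smul_left, tri_smul_mid,
        tri_smul_right, q8_symvan_van, mul_zero, mul_zero, mul_zero]
    have hgood : Good (uD x) (uU x) (uP x) k :=
      ⟨fun i hi => hx2 i (Finset.mem_range.2 (by omega)), fun i hi => hx3 i (Finset.mem_range.2 hi)⟩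
    have h1 : m * (m + n) - (m + 2).choose 3 ≤
        Module.finrank L (Sn (uD x) (uU x) (uP x) k) := by
      rw [rank_iff]
      exact ⟨t, q, hx4⟩
    have h2 := finrank_TS (uD x) hsym (chain (uD x) (uU x) (uP x) k) (gP (uP x k))
      (hgood.det k le_rfl)
    have h3 := Submodule.finrank_mono (Sn_le_TS hsym hvan (uP x) k)
    rw [Fintype.card_fin] at h2
    refine ⟨hsym, hvan, hgood, ?_, hx5⟩
    omega

end Pool.Agent.Helper76.UF
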